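import Pool.Agent.Lib.H76P.C4

/-!
# H86E: blocks of a configuration permuted transitively

`FF` is a finite set of orthogonal splittings with sum `1` (blocks).  If the affine symmetries of the configuration permute the
blocks transitively, the number of points is a power `a ^ FF.card`.  An equivariant map of a finite transitive set `R` onto `FF` has
fibres of equal size.
-/

set_option autoImplicit false
namespace Pool.Agent.Lib.H86E
open Pool.Agent.H76P

variable {κ : Type*} [Fintype κ] {V : Type*} [AddCommGroup V] [Module ℚ V]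

/-- The number of points is the product of the numbers of coordinates. -/
theorem card_prod_spl [Nonempty κ] {pt : κ → V} (hs : Spans pt) (hinj : Function.Injective pt)
    {FF : Finset (Module.End ℚ V)} (h1 : ∀ q ∈ FF, Spl pt q) (horth : ∀ q ∈ FF, ∀ r ∈ FF, q ≠ r → q * r = 0)
    (h2 : ∑ q ∈ FF, q = 1) : Fintype.card κ = ∏ q ∈ FF, cnt pt q := by
  classical
  have key : ∀ t : Finset (Module.End ℚ V), t ⊆ FF → Spl pt (∑ q ∈ t, q) ∧
      cnt pt (∑ q ∈ t, q) = ∏ q ∈ t, cnt pt q := by
    intro t
    induction t using Finset.induction_on with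
    | empty =>
      intro _
      rw [Finset.sum_empty, Finset.prod_empty]
      exact ⟨Spl.zero pt, cnt_zero pt⟩
    | insert a t ha ih =>
      intro hsub
      obtain ⟨i1, i2⟩ := ih ((Finset.subset_insert _ _).trans hsub)
      have haF := hsub (Finset.mem_insert_self _ _)
      have h0 : a * ∑ q ∈ t, q = 0 := by
        rw [Finset.mul_sum]
        refine Finset.sum_eq_zero fun q hq => ?_
        refine horth a haF q (hsub (Finset.mem_insert_of_mem hq)) ?_
        rintro rfl
        exact ha hq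
      rw [Finset.sum_insert ha, Finset.prod_insert ha]
      exact ⟨Spl.add hs (h1 a haF) i1 h0, by rw [cnt_add hs (h1 a haF) i1 h0, i2]⟩
  have h3 := (key FF (Finset.Subset.refl _)).2
  rw [h2, cnt_one hinj] at h3
  exact h3

/-- Transitively permuted blocks: the number of points is a power. -/
theorem blocks_power [Nonempty κ] {pt : κ → V} (hs : Spans pt) (hinj : Function.Injective pt)
    {FF : Finset (Module.End ℚ V)} (h1 : ∀ q ∈ FF, Spl pt q) (horth : ∀ q ∈ FF, ∀ r ∈ FF, q ≠ r → q * r = 0)
    (h2 : ∑ q ∈ FF, q = 1)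
    (htr : ∀ q ∈ FF, ∀ r ∈ FF, ∃ (σ : Equiv.Perm κ) (s : V ≃ₗ[ℚ] V), Aff pt σ s ∧ conj s q = r) :
    ∃ a : ℕ, Fintype.card κ = a ^ FF.card := by
  rcases FF.eq_empty_or_nonempty with h0 | ⟨q, hq⟩
  · refine ⟨1, ?_⟩
    rw [card_prod_spl hs hinj h1 horth h2, h0, Finset.prod_empty, one_pow]
  · refine ⟨cnt pt q, ?_⟩
    rw [card_prod_spl hs hinj h1 horth h2, ← Finset.prod_const]
    refine Finset.prod_congr rfl fun r hr => ?_
    obtain ⟨σ, s, hA, rfl⟩ := htr q hq r hr
    exact cnt_conj hA q

/-- The fibres of an equivariant map from a transitive set have the same size. -/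
theorem card_dvd_of_equivariant {Ω X : Type*} [DecidableEq Ω] [DecidableEq X] (R : Finset Ω) (FF : Finset X) (f : Ω → X)
    (hf : ∀ r ∈ R, f r ∈ FF) (hsurj : ∀ x ∈ FF, ∃ r ∈ R, f r = x)
    (htr : ∀ r ∈ R, ∀ r' ∈ R, ∃ (g : Ω → Ω) (h : X → X), Function.Injective g ∧ (∀ x ∈ R, g x ∈ R) ∧ g r = r' ∧
      Function.Injective h ∧ ∀ x ∈ R, f (g x) = h (f x)) :
    FF.card ∣ R.card := by
  -- all fibres have the same size
  have hle : ∀ x ∈ FF, ∀ y ∈ FF, (R.filter fun r => f r = x).card ≤ (R.filter fun r => f r = y).card := by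
    intro x hx y hy
    obtain ⟨r, hr, hrx⟩ := hsurj x hx
    obtain ⟨r', hr', hry⟩ := hsurj y hy
    obtain ⟨g, h, hg, hgR, hgr, hh, hgh⟩ := htr r hr r' hr'
    have hxy : h x = y := by rw [← hrx, ← hgh r hr, hgr, hry]
    refine Finset.card_le_card_of_injOn g ?_ hg.injOn
    intro z hz
    simp only [Finset.coe_filter, Set.mem_ofPred_eq] at hz ⊢
    exact ⟨hgR z hz.1, by rw [hgh z hz.1, hz.2, hxy]⟩
  rcases FF.eq_empty_or_nonempty with h0 | ⟨x₀, hx₀⟩
  · have hR : R = ∅ := by
      rw [Finset.eq_empty_iff_forall_notMem]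
      intro r hr
      have := hf r hr
      rw [h0] at this
      exact absurd this (Finset.notMem_empty _)
    rw [h0, hR]
    simp
  · refine ⟨(R.filter fun r => f r = x₀).card, ?_⟩
    have h1 : R.card = ∑ x ∈ FF, (R.filter fun r => f r = x).card :=
      Finset.card_eq_sum_card_fiberwise fun r hr => hf r hr
    rw [h1, ← smul_eq_mul, ← Finset.sum_const]
    exact Finset.sum_congr rfl fun x hx => le_antisymm (hle x hx x₀ hx₀) (hle x₀ hx₀ x hx)

end Pool.Agent.Lib.H86E
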