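import Pool.Agent.Lib.H76P.T13
import Pool.Agent.Lib.H76P.T11
import Pool.Agent.Lib.H76V.VA5

/-!
# H86E: dimension eight

`κ` has eight elements.  If `P` is the projection onto one of the minimal ideals `I j`, then `P` is an atom of the configuration.
-/

set_option autoImplicit false
set_option linter.unusedSectionVars false
namespace Pool.Agent.Lib.H86E
open Module Matrix Pool.Agent.H53Toric Pool.Agent.H76P
open Pool.Agent.H76T (IsIdeal Fam)
open Pool.Agent.H76V (Cmp alg calg mem_alg mem_calg)

variable {κ : Type*} {K : Type*} [Field K] [CharZero K] [Fintype κ] [DecidableEq κ]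
  {L : Submodule K (Module.End K (κ → K))} {J : Matrix κ κ K}

/-- A splitting which is not zero sees one of the involutions. -/
theorem exists_eps (hs : Spans (pt L)) {r : Module.End ℚ (Module.Dual ℚ (Yo L))} (hr : Spl (pt L) r)
    (h0 : r ≠ 0) : ∃ (ε : κ → ℚ) (hε : ε ∈ Hs L), ∀ u : Module.Dual ℚ (Yo L),
      r u ⟨ε, Submodule.subset_span hε⟩ = u ⟨ε, Submodule.subset_span hε⟩ := by
  have h1 : ∃ u, r u ≠ 0 := by
    by_contra h2
    push Not at h2
    exact h0 (LinearMap.ext h2)
  obtain ⟨u, hu⟩ := h1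
  have h2 : ∃ (ε : κ → ℚ) (hε : ε ∈ Hs L), r u ⟨ε, Submodule.subset_span hε⟩ ≠ 0 := by
    by_contra h3
    push Not at h3
    apply hu
    refine LinearMap.ext fun f => ?_
    obtain ⟨f, hf⟩ := f
    rw [LinearMap.zero_apply]
    have key : ∀ (f : κ → ℚ) (hf : f ∈ Submodule.span ℚ (Hs L)), r u ⟨f, hf⟩ = 0 := by
      intro f hf
      induction hf using Submodule.span_induction with
      | mem ε hε => exact h3 ε hε
      | zero => exact map_zero (r u)
      | add a b ha hb ha' hb' =>
        have e : (⟨a + b, Submodule.add_mem _ ha hb⟩ : Yo L) = ⟨a, ha⟩ + ⟨b, hb⟩ := rfl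
        exact (congrArg (r u) e).trans (by rw [map_add, ha', hb', add_zero])
      | smul c a ha ha' =>
        have e : (⟨c • a, Submodule.smul_mem _ c ha⟩ : Yo L) = c • ⟨a, ha⟩ := rfl
        exact (congrArg (r u) e).trans (by rw [map_smul, ha', smul_zero])
    exact key f hf
  obtain ⟨ε, hε, h3⟩ := h2
  refine ⟨ε, hε, ?_⟩
  rcases two_values hs hr
    (ε := Module.Dual.eval ℚ (Yo L) ⟨ε, Submodule.subset_span hε⟩) (e := ε)
    (fun a b => rfl) hε.1 with h4 | h4
  · exact h4
  · exact absurd (h4 u) h3

/-- The exchange map of a splitting. -/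
theorem exists_exch (hinj : Function.Injective (pt L)) {q : Module.End ℚ (Module.Dual ℚ (Yo L))} (hq : Spl (pt L) q) :
    ∃ c : κ → κ → κ, (∀ a b, pt L (c a b) = pt L a + q (pt L b - pt L a)) ∧ ∀ a b, c (c a b) (c b a) = a := by
  choose c hc using hq.2
  refine ⟨c, hc, fun a b => hinj ?_⟩
  have hqq : ∀ u, q (q u) = q u := fun u => by
    have h1 : (q * q) u = q u := by rw [hq.1]
    exact h1
  rw [hc, hc, hc]
  simp only [map_add, map_sub, hqq]
  abel

/-- Sums over the exchanged pairs. -/
theorem sum_exch {c : κ → κ → κ} (hc : ∀ a b, c (c a b) (c b a) = a) (F : κ → ℚ) :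
    ∑ a, ∑ b, F (c a b) = Fintype.card κ * ∑ a, F a := by
  have h1 : ∑ x : κ × κ, F (c x.1 x.2) = ∑ x : κ × κ, F x.1 := by
    refine Fintype.sum_bijective (fun x : κ × κ => (c x.1 x.2, c x.2 x.1)) ?_ _ _ fun x => rfl
    refine Function.Involutive.bijective fun x => ?_
    exact Prod.ext (hc _ _) (hc _ _)
  rw [Fintype.sum_prod_type, Fintype.sum_prod_type] at h1
  rw [h1, Finset.mul_sum]
  refine Finset.sum_congr rfl fun a _ => ?_
  show ∑ _y : κ, F a = _
  rw [Finset.sum_const, Finset.card_univ, nsmul_eq_mul]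

/-- The orthogonality of the two involutions. -/
theorem sum_mul_eq_zero [Nonempty κ] {c : κ → κ → κ} (hc : ∀ a b, c (c a b) (c b a) = a) {ε ε' : κ → ℚ}
    (h1 : ∀ a b, ε (c a b) = ε b) (h2 : ∀ a b, ε' (c a b) = ε' a) (h0 : ∑ a, ε a = 0) :
    ∑ a, ε a * ε' a = 0 := by
  have h3 := sum_exch hc fun a => ε a * ε' a
  have h4 : ∑ a, ∑ b, ε (c a b) * ε' (c a b) = 0 := by
    refine Finset.sum_eq_zero fun a _ => ?_
    simp only [h1, h2]
    rw [← Finset.sum_mul, h0, zero_mul]
  rw [h4] at h3
  have h5 : (Fintype.card κ : ℚ) ≠ 0 := by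
    exact_mod_cast Fintype.card_ne_zero
  exact (mul_eq_zero.1 h3.symm).resolve_left h5

/-- The number of points where two orthogonal involutions have given signs. -/
theorem card_signs (h8 : Fintype.card κ = 8) {ε ε' : κ → ℚ} (hε : ∀ a, ε a = 1 ∨ ε a = -1)
    (hε' : ∀ a, ε' a = 1 ∨ ε' a = -1) (h1 : ∑ a, ε a = 0) (h2 : ∑ a, ε' a = 0)
    (h3 : ∑ a, ε a * ε' a = 0) {s t : ℚ} (hs : s = 1 ∨ s = -1) (ht : t = 1 ∨ t = -1) :
    (Finset.univ.filter fun a => ε a = s ∧ ε' a = t).card = 2 := by
  have h4 : ∑ a, (1 + s * ε a) * (1 + t * ε' a) = 8 := by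
    have e : ∀ a, (1 + s * ε a) * (1 + t * ε' a) = 1 + s * ε a + t * ε' a + s * t * (ε a * ε' a) := fun a => by ring
    simp only [e]
    rw [Finset.sum_add_distrib, Finset.sum_add_distrib, Finset.sum_add_distrib, ← Finset.mul_sum, ← Finset.mul_sum,
      ← Finset.mul_sum, h1, h2, h3, Finset.sum_const, Finset.card_univ, h8]
    norm_num
  have h5 : ∑ a, (1 + s * ε a) * (1 + t * ε' a) = ∑ a, if ε a = s ∧ ε' a = t then (4 : ℚ) else 0 := by
    refine Finset.sum_congr rfl fun a _ => ?_
    rcases hε a with h | h <;> rcases hε' a with h' | h' <;> rcases hs with rfl | rfl <;> rcases ht with rfl | rfl <;>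
      rw [h, h'] <;> norm_num
  rw [h5, ← Finset.sum_filter, Finset.sum_const, nsmul_eq_mul] at h4
  have h6 : ((Finset.univ.filter fun a => ε a = s ∧ ε' a = t).card : ℚ) = 2 := by linarith
  exact_mod_cast h6

/-- The rank of an operator is at most the number of basis vectors which it does not kill. -/
theorem rank_le_card (X : Module.End K (κ → K)) (s : Finset κ) (h : ∀ c ∉ s, X (Pi.single c 1) = 0) :
    finrank K (LinearMap.range X) ≤ s.card := by
  classical
  have h1 : LinearMap.range X ≤ Submodule.span K (Set.range fun c : s => X (Pi.single (c : κ) 1)) := by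
    rintro _ ⟨v, rfl⟩
    have h2 : v = ∑ c, v c • Pi.single c (1 : K) := by
      ext a
      rw [Finset.sum_apply, Finset.sum_eq_single a]
      · simp
      · intro b _ hb
        simp [Pi.single_eq_of_ne hb.symm]
      · simp
    rw [h2, map_sum]
    refine Submodule.sum_mem _ fun c _ => ?_
    rw [map_smul]
    by_cases hc : c ∈ s
    · exact Submodule.smul_mem _ _ (Submodule.subset_span ⟨⟨c, hc⟩, rfl⟩)
    · rw [h c hc, smul_zero]
      exact Submodule.zero_mem _
  refine (Submodule.finrank_mono h1).trans ((finrank_range_le_card _).trans ?_)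
  rw [Fintype.card_coe]

/-- signs -/
theorem sg {x d a b : ℚ} (hx : x = 1 ∨ x = -1) (hd : d = 1 ∨ d = -1) (ha : a = 1 ∨ a = -1) (hb : b = 1 ∨ b = -1)
    (h : x - d = a - b) (hab : a ≠ b) : d = b := by
  rcases hx with rfl | rfl <;> rcases hd with rfl | rfl <;> rcases ha with rfl | rfl <;> rcases hb with rfl | rfl <;>
    first | rfl | exact absurd rfl hab | (exfalso; norm_num at h)

variable [IsAlgClosed K] [Nonempty κ]

theorem dq_phi (f : κ → ℚ) : (dq f : Module.End K (κ → K)) = phi (Matrix.diagonal fun a => (f a : K)) := by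
  refine LinearMap.ext fun v => funext fun a => ?_
  rw [dq, dg_apply]
  show _ = (Matrix.mulVec (Matrix.diagonal fun a => (f a : K)) v) a
  rw [Matrix.mulVec_diagonal]

/-- The form pairs opposite points. -/
theorem opp (h : Cmp L J) {f : κ → ℚ} (hf : f ∈ Yo L) {x y : κ} (hxy : J x y ≠ 0) : f y = - f x := by
  classical
  have h3 := h.skew _ (Yo_mem hf)
  rw [dq_phi, skew_iff h.Jd, Matrix.diagonal_transpose] at h3
  have h4 := congrFun (congrFun h3 x) y
  rw [Matrix.add_apply, Matrix.diagonal_mul, Matrix.mul_diagonal, Matrix.zero_apply] at h4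
  have h5 : ((f x : K) + (f y : K)) * J x y = 0 := by linear_combination h4
  have h6 := (mul_eq_zero.1 h5).resolve_right hxy
  have h7 : f x + f y = 0 := by exact_mod_cast h6
  linarith

/-- If the form pairs opposite points only, the odd functions are skew. -/
theorem skew_of_opp (h : Cmp L J) {f : κ → ℚ} (hf : ∀ x y, J x y ≠ 0 → f y = - f x) :
    adjE J (dq f) = - (dq f : Module.End K (κ → K)) := by
  classical
  rw [dq_phi, skew_iff h.Jd, Matrix.diagonal_transpose]
  ext x y
  rw [Matrix.add_apply, Matrix.diagonal_mul, Matrix.mul_diagonal, Matrix.zero_apply]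
  by_cases hxy : J x y = 0
  · rw [hxy, mul_zero, zero_mul, add_zero]
  · rw [hf x y hxy]
    push_cast
    ring

/-- The full Lie algebra has an indecomposable configuration. -/
theorem full_contra (h : Cmp L J) (diag : ∀ f : κ → ℚ, dq f ∈ L → f ∈ Yo L) (hinj : Function.Injective (pt L))
    (hfull : ∀ X : Module.End K (κ → K), adjE J X = -X → X ∈ L)
    {q : Module.End ℚ (Module.Dual ℚ (Yo L))} (hq : Spl (pt L) q) {a b b' : κ} (hbb : b ≠ b')
    (h1 : q (pt L b - pt L a) ≠ 0) (h2 : q (pt L b - pt L a) ≠ pt L b - pt L a)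
    (h1' : q (pt L b' - pt L a) ≠ 0) (h2' : q (pt L b' - pt L a) ≠ pt L b' - pt L a) : False := by
  classical
  obtain ⟨ab, hab⟩ : ∃ ab, J a ab ≠ 0 := by
    by_contra hcon
    push Not at hcon
    have h3 : J.det = 0 := Matrix.det_eq_zero_of_row_eq_zero a hcon
    have h4 := h.Jd
    rw [h3] at h4
    exact not_isUnit_zero h4
  have uniq : ∀ x y y', J x y ≠ 0 → J x y' ≠ 0 → y = y' := by
    intro x y y' hy hy'
    refine hinj (LinearMap.ext fun f => ?_)
    rw [pt_apply, pt_apply, opp h f.2 hy, opp h f.2 hy']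
  have anti : ∀ x y, J y x = - J x y := fun x y => by
    have h3 := congrFun (congrFun h.Jt x) y
    rw [Matrix.transpose_apply, Matrix.neg_apply] at h3
    exact h3
  have hba : J ab a ≠ 0 := by
    rw [anti a ab]
    exact neg_ne_zero.2 hab
  have hne : a ≠ ab := by
    intro h3
    rw [← h3] at hab
    have h4 := anti a a
    have h5 : (2 : K) * J a a = 0 := by linear_combination h4
    exact hab ((mul_eq_zero.1 h5).resolve_left two_ne_zero)
  set f : κ → ℚ := fun x => if x = a then 1 else if x = ab then -1 else 0 with hf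
  have fa : f a = 1 := by simp [hf]
  have fab : f ab = -1 := by simp [hf, hne.symm]
  have f0 : ∀ x, x ≠ a → x ≠ ab → f x = 0 := fun x hx hx' => by simp [hf, hx, hx']
  have fodd : ∀ x y, J x y ≠ 0 → f y = - f x := by
    intro x y hxy
    by_cases hx : x = a
    · subst hx
      rw [uniq x y ab hxy hab, fab, fa]
    · by_cases hx' : x = ab
      · subst hx'
        rw [uniq x y a hxy hba, fa, fab, neg_neg]
      · have hyx : J y x ≠ 0 := by
          rw [anti x y]
          exact neg_ne_zero.2 hxy
        have hy : y ≠ a := by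
          rintro rfl
          exact hx' (uniq y x ab hyx hab)
        have hy' : y ≠ ab := by
          rintro rfl
          exact hx (uniq y x a hyx hba)
        rw [f0 x hx hx', f0 y hy hy', neg_zero]
  have fY : f ∈ Yo L := diag f (hfull _ (skew_of_opp h fodd))
  obtain ⟨c, hc, -⟩ := exists_exch hinj hq
  have key : ∀ b, b ≠ ab → q (pt L b - pt L a) ≠ 0 → q (pt L b - pt L a) ≠ pt L b - pt L a → False := by
    intro b hb h3 h4
    have hba' : b ≠ a := by
      rintro rfl
      rw [sub_self, map_zero] at h3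
      exact h3 rfl
    have h5 : pt L (c a b) + pt L (c b a) = pt L a + pt L b := by
      rw [hc, hc, map_sub, map_sub]
      abel
    have h6 := congrArg (fun u : Module.Dual ℚ (Yo L) => u ⟨f, fY⟩) h5
    simp only [LinearMap.add_apply, pt_apply] at h6
    rw [fa, f0 b hba' hb, add_zero] at h6
    have h7 : c a b = a ∨ c b a = a := by
      by_contra hcon
      push Not at hcon
      have h8 : ∀ x, x ≠ a → f x ≤ 0 := by
        intro x hx
        by_cases hx' : x = ab
        · rw [hx', fab]
          norm_num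
        · rw [f0 x hx hx']
      have h9 := h8 _ hcon.1
      have h10 := h8 _ hcon.2
      linarith
    rcases h7 with h8 | h8
    · have h9 := hc a b
      rw [h8] at h9
      exact h3 (add_eq_left.1 h9.symm)
    · have h9 := hc b a
      rw [h8] at h9
      apply h4
      have h10 : q (pt L a - pt L b) = - q (pt L b - pt L a) := by rw [← map_neg, neg_sub]
      rw [h10] at h9
      have h11 : pt L b - pt L a = pt L b - (pt L b + - q (pt L b - pt L a)) := by rw [← h9]
      rw [sub_add_eq_sub_sub, sub_self, zero_sub, neg_neg] at h11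
      exact h11.symm
  by_cases hb : b = ab
  · exact key b' (fun h3 => hbb (hb.trans h3.symm)) h1' h2'
  · exact key b hb h1 h2

/-- **Dimension eight.** -/
theorem eight_atom (h : Cmp L J) (diag : ∀ f : κ → ℚ, dq f ∈ L → f ∈ Yo L) (hinj : Function.Injective (pt L))
    {m : ℕ} {I : Fin m → Submodule K (Module.End K (κ → K))} (hF : Fam L I) {j : Fin m} {P : Module.End ℚ (Yo L)}
    (hP1 : ∀ f, dq (P f : κ → ℚ) ∈ I j) (hPS : Spl (pt L) P.dualMap) (h8 : Fintype.card κ = 8)
    {q : Module.End ℚ (Module.Dual ℚ (Yo L))} (hq : Spl (pt L) q) (hq0 : q ≠ 0) (hqP : q * P.dualMap = q) :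
    q = P.dualMap := by
  classical
  by_contra hne
  have hs : Spans (pt L) := pt_spans h
  have hcomm := Spl.comm hs hq hPS
  have hπq : ∀ u, P.dualMap (q u) = q u := fun u => by
    have h1 : (P.dualMap * q) u = q u := by rw [← hcomm, hqP]
    exact h1
  have hqπ : ∀ u, q (P.dualMap u) = q u := fun u => by
    have h1 : (q * P.dualMap) u = q u := by rw [hqP]
    exact h1
  have hqq : ∀ u, q (q u) = q u := fun u => by
    have h1 : (q * q) u = q u := by rw [hq.1]
    exact h1
  have hππ : ∀ u, P.dualMap (P.dualMap u) = P.dualMap u := fun u => by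
    have h1 : (P.dualMap * P.dualMap) u = P.dualMap u := by rw [hPS.1]
    exact h1
  -- the complement of `q` in the ideal
  obtain ⟨r, hr⟩ : ∃ r, r = P.dualMap * (1 - q) := ⟨_, rfl⟩
  have hrS : Spl (pt L) r := hr ▸ Spl.mul hs hPS hq.compl
  have hru : ∀ u, r u = P.dualMap u - q u := fun u => by
    rw [hr]
    show P.dualMap (u - q u) = _
    rw [map_sub, hπq]
  have hr0 : r ≠ 0 := by
    intro h0
    apply hne
    refine LinearMap.ext fun u => ?_
    have h1 := hru u
    rw [h0, LinearMap.zero_apply] at h1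
    exact (sub_eq_zero.1 h1.symm).symm
  obtain ⟨ε, hε, hqε⟩ := exists_eps hs hq hq0
  obtain ⟨ε', hε', hrε'⟩ := exists_eps hs hrS hr0
  have hqε' : ∀ u, q u ⟨ε', Submodule.subset_span hε'⟩ = 0 := by
    intro u
    rw [← hrε', hru, hπq, hqq, sub_self, LinearMap.zero_apply]
  have hsep : ∀ f g : Yo L, (∀ u : Module.Dual ℚ (Yo L), u f = u g) → f = g := by
    intro f g hfg
    rw [← sub_eq_zero, ← Module.forall_dual_apply_eq_zero_iff ℚ]
    intro u
    rw [map_sub, hfg u, sub_self]
  have hεj : dq ε ∈ I j := by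
    have h1 := hP1 ⟨ε, Submodule.subset_span hε⟩
    have h2 : P ⟨ε, Submodule.subset_span hε⟩ = ⟨ε, Submodule.subset_span hε⟩ := by
      apply hsep
      intro u
      rw [← LinearMap.dualMap_apply, ← hqε (P.dualMap u), hqπ, hqε]
    rwa [h2] at h1
  have hεj' : dq ε' ∈ I j := by
    have h1 := hP1 ⟨ε', Submodule.subset_span hε'⟩
    have h2 : P ⟨ε', Submodule.subset_span hε'⟩ = ⟨ε', Submodule.subset_span hε'⟩ := by
      apply hsep
      intro u
      rw [← LinearMap.dualMap_apply, ← hrε' (P.dualMap u), hru, hππ, hqπ, ← hru, hrε']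
    rwa [h2] at h1
  -- the exchange map
  obtain ⟨c, hc, hcc⟩ := exists_exch hinj hq
  have hc1 : ∀ a b, ε (c a b) = ε b := by
    intro a b
    have h1 := congrArg (fun u : Module.Dual ℚ (Yo L) => u ⟨ε, Submodule.subset_span hε⟩) (hc a b)
    simp only [LinearMap.add_apply, hqε, LinearMap.sub_apply, pt_apply] at h1
    rw [h1]
    ring
  have hc2 : ∀ a b, ε' (c a b) = ε' a := by
    intro a b
    have h1 := congrArg (fun u : Module.Dual ℚ (Yo L) => u ⟨ε', Submodule.subset_span hε'⟩) (hc a b)
    simp only [LinearMap.add_apply, hqε', pt_apply, add_zero] at h1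
    exact h1
  have hsum1 : ∑ a, ε a = 0 := Yo_sum h (Submodule.subset_span hε)
  have hsum2 : ∑ a, ε' a = 0 := Yo_sum h (Submodule.subset_span hε')
  have hsum3 : ∑ a, ε a * ε' a = 0 := sum_mul_eq_zero hcc hc1 hc2 hsum1
  have hcard : ∀ {s t : ℚ}, (s = 1 ∨ s = -1) → (t = 1 ∨ t = -1) →
      (Finset.univ.filter fun a => ε a = s ∧ ε' a = t).card = 2 := fun hs' ht =>
    card_signs h8 hε.1 hε'.1 hsum1 hsum2 hsum3 hs' ht
  -- a root which changes both signs
  have hε0 : ε ≠ 0 := by
    intro h0
    obtain ⟨a⟩ := ‹Nonempty κ›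
    rcases hε.1 a with h1 | h1 <;> rw [h0] at h1 <;> simp at h1
  obtain ⟨X, hX, a, b, hX0, hab', hab, hw⟩ := mixed_root h hF hε' hεj' (Submodule.subset_span hε) hεj hε0
  have hXr : finrank K (LinearMap.range X) ≤ 2 := by
    rw [← hcard (hε.1 b) (hε'.1 b)]
    refine rank_le_card X _ fun d hd => ?_
    ext x
    rw [Pi.zero_apply]
    by_contra hx
    apply hd
    have h1 : pt L x - pt L d = pt L a - pt L b := hw.entry (by rw [LinearMap.toMatrix'_apply]; exact hx)
    have h2 := congrArg (fun u : Module.Dual ℚ (Yo L) => u ⟨ε, Submodule.subset_span hε⟩) h1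
    have h3 := congrArg (fun u : Module.Dual ℚ (Yo L) => u ⟨ε', Submodule.subset_span hε'⟩) h1
    simp only [LinearMap.sub_apply, pt_apply] at h2 h3
    rw [Finset.mem_filter]
    refine ⟨Finset.mem_univ _, ?_, ?_⟩
    · exact sg (hε.1 x) (hε.1 d) (hε.1 a) (hε.1 b) h2 hab
    · exact sg (hε'.1 x) (hε'.1 d) (hε'.1 a) (hε'.1 b) h3 hab'
  have hXr0 : finrank K (LinearMap.range X) ≠ 0 := by
    intro h0
    rw [Submodule.finrank_eq_zero, LinearMap.range_eq_bot] at h0
    exact hX0 h0
  by_cases hm : ∃ i, i ≠ j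
  · -- at least two ideals
    obtain ⟨i, hij⟩ := hm
    obtain ⟨a', d, ha', hd', hV, hae, hde, hdvd, -⟩ := h.dims hF hij
    have hcardV : finrank K (κ → K) = 8 := by rw [Module.finrank_fintype_fun_eq_card, h8]
    -- the idempotent of rank two
    have hidem : a' ∣ 2 := by
      set N : Module.End K (κ → K) := ((1 / 2 : K) • (1 + dq ε)) * ((1 / 2 : K) • (1 + dq ε')) with hN
      have hNd : N = dg fun a => if ε a = 1 ∧ ε' a = 1 then 1 else 0 := by
        refine LinearMap.ext fun v => funext fun x => ?_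
        rw [hN]
        simp only [Module.End.mul_apply, LinearMap.smul_apply, LinearMap.add_apply, Module.End.one_apply, Pi.smul_apply,
          Pi.add_apply, smul_eq_mul, dq, dg_apply]
        rcases hε.1 x with h4 | h4 <;> rcases hε'.1 x with h5 | h5 <;> rw [h4, h5] <;> norm_num <;> ring
      have hNA : N ∈ alg I j := by
        rw [hN]
        refine Subalgebra.mul_mem _ ?_ ?_
        · exact Subalgebra.smul_mem _ (Subalgebra.add_mem _ (Subalgebra.one_mem _) (mem_alg hεj)) _
        · exact Subalgebra.smul_mem _ (Subalgebra.add_mem _ (Subalgebra.one_mem _) (mem_alg hεj')) _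
      have hNN : N * 1 * N = N := by
        rw [mul_one, hNd, dg_mul]
        congr 1
        funext x
        rw [Pi.mul_apply]
        split_ifs <;> simp
      have h1 := hdvd N hNA 1 (Subalgebra.one_mem _) hNN
      have h2 : finrank K (LinearMap.range N) ≤ 2 := by
        rw [← hcard (s := 1) (t := 1) (Or.inl rfl) (Or.inl rfl)]
        refine rank_le_card N _ fun x hx => ?_
        rw [Finset.mem_filter] at hx
        rw [hNd]
        funext y
        rw [dg_apply, Pi.zero_apply]
        by_cases hxy : y = x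
        · subst hxy
          rw [if_neg fun h => hx ⟨Finset.mem_univ _, h⟩, zero_mul]
        · rw [Pi.single_eq_of_ne hxy, mul_zero]
      have h3 : finrank K (LinearMap.range N) ≠ 0 := by
        intro h0
        rw [Submodule.finrank_eq_zero, LinearMap.range_eq_bot] at h0
        have h4 : (Finset.univ.filter fun a => ε a = 1 ∧ ε' a = 1).Nonempty := by
          rw [← Finset.card_pos, hcard (Or.inl rfl) (Or.inl rfl)]
          norm_num
        obtain ⟨x, hx⟩ := h4
        rw [Finset.mem_filter] at hx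
        have h5 := congrFun (congrArg (fun T : Module.End K (κ → K) => T (Pi.single x 1)) h0) x
        simp only [hNd, dg_apply, Pi.single_eq_same, mul_one, LinearMap.zero_apply, Pi.zero_apply] at h5
        rw [if_pos hx.2] at h5
        exact one_ne_zero h5
      have h6 := Nat.le_of_dvd (by omega) h1
      obtain ⟨t, ht⟩ := hae
      have h7 : a' ≠ 0 := by
        rintro rfl
        rw [zero_mul] at hV
        omega
      have : a' = 2 := by omega
      rw [this]
    have ha2 : a' = 2 := by
      obtain ⟨t, ht⟩ := hae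
      have h7 : a' ≠ 0 := by
        rintro rfl
        rw [zero_mul] at hV
        omega
      have h8' := Nat.le_of_dvd (by norm_num) hidem
      omega
    have h4 := h.four hF hij ha' ha2 hX
    have h5 := Nat.le_of_dvd (by omega) h4
    omega
  · -- one ideal
    push Not at hm
    have hcardV : finrank K (κ → K) = 8 := by rw [Module.finrank_fintype_fun_eq_card, h8]
    obtain rfl : m = 1 := by
      have h1 : Subsingleton (Fin m) := ⟨fun x y => by rw [hm x, hm y]⟩
      have h2 : 0 < m := j.pos
      have h3 := Fintype.card_le_one_iff_subsingleton.2 h1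
      rw [Fintype.card_fin] at h3
      omega
    rcases h.simple hF with h1 | ⟨k, hk, -, h2, -⟩ | ⟨k, hk, -, h2, -⟩
    · -- two points which differ from `a` in both coordinates
      have h3 : (Finset.univ.filter fun x => ε x = - ε a ∧ ε' x = - ε' a).card = 2 := by
        refine hcard ?_ ?_
        · rcases hε.1 a with h4 | h4 <;> rw [h4] <;> norm_num
        · rcases hε'.1 a with h4 | h4 <;> rw [h4] <;> norm_num
      obtain ⟨x, hx, y, hy, hxy⟩ := Finset.one_lt_card.1 (by rw [h3]; norm_num : 1 < (Finset.univ.filter fun x => ε x = - ε a ∧ ε' x = - ε' a).card)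
      rw [Finset.mem_filter] at hx hy
      have key : ∀ x, ε x = - ε a → ε' x = - ε' a → q (pt L x - pt L a) ≠ 0 ∧
          q (pt L x - pt L a) ≠ pt L x - pt L a := by
        intro x h4 h5
        constructor
        · intro h6
          have h7 := congrArg (fun u : Module.Dual ℚ (Yo L) => u ⟨ε, Submodule.subset_span hε⟩) h6
          simp only [hqε, LinearMap.sub_apply, pt_apply, LinearMap.zero_apply] at h7
          rw [h4] at h7
          rcases hε.1 a with h8' | h8' <;> rw [h8'] at h7 <;> norm_num at h7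
        · intro h6
          have h7 := congrArg (fun u : Module.Dual ℚ (Yo L) => u ⟨ε', Submodule.subset_span hε'⟩) h6
          simp only [hqε', LinearMap.sub_apply, pt_apply] at h7
          rw [h5] at h7
          rcases hε'.1 a with h8' | h8' <;> rw [h8'] at h7 <;> norm_num at h7
      obtain ⟨k1, k2⟩ := key x hx.2.1 hx.2.2
      obtain ⟨k3, k4⟩ := key y hy.2.1 hy.2.2
      exact full_contra h diag hinj h1 hq hxy k1 k2 k3 k4
    · rw [hcardV] at h2
      have h4 : 2 ^ 5 ≤ 2 ^ k := Nat.pow_le_pow_right (by norm_num) hk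
      omega
    · rw [hcardV] at h2
      have h4 : Nat.centralBinom 3 ≤ k.centralBinom := Nat.centralBinom_strictMono.monotone hk
      have h5 : Nat.centralBinom 3 = 20 := by decide
      omega

end Pool.Agent.Lib.H86E
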