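import Mathlib

/-!
# H86E: the multiplier class of a corner algebra is a character

`A` is a space of `ι × ι` matrices over `K`, closed under products, with unit `e` and centre `K e`, stable under a group `Γ` of
automorphisms of `K` (acting on the entries) with fixed field `k`; `J` is a rational invertible matrix.
`ρ : G → GL_ι(K)` has entries in `k`, and each `ρ g` acts on `A` as the conjugation by an element `U ∈ A` with
`J⁻¹ Uᵀ J U = m e`.

* `Crn.exists_char`: the class of `m` in `kˣ / squares`, for rational `U`, is a character of `G`.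
* `Crn.sq_of_recl`: if `ρ σ` is a product of squares then `m` is a square in `k` for all rational `U` which implement `ρ σ`.
-/

set_option autoImplicit false
set_option linter.unusedSectionVars false

namespace Pool.Agent.Lib.H86E.Ch

open Matrix

variable {ι K : Type*} [Fintype ι] [DecidableEq ι] [Field K]

/-- A matrix fixed by the automorphisms in `Γ`. -/
def Rat (Γ : Subgroup (K ≃+* K)) (a : Matrix ι ι K) : Prop := ∀ s ∈ Γ, a.map s = a

theorem map_mul' (s : K ≃+* K) (a b : Matrix ι ι K) : (a * b).map s = a.map s * b.map s :=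
  Matrix.map_mul

theorem map_map' (s t : K ≃+* K) (a : Matrix ι ι K) : (a.map s).map t = a.map (s.trans t) := by
  ext i j
  simp

theorem map_smul' (s : K ≃+* K) (c : K) (a : Matrix ι ι K) : (c • a).map s = s c • a.map s := by
  ext i j
  simp

/-- Uniqueness of inverses. -/
theorem inv_uniq {R : Type*} [Ring R] {a b c : R} (h1 : b * a = 1) (h2 : a * c = 1) : b = c := by
  calc b = b * (a * c) := by rw [h2, mul_one]
    _ = c := by rw [← mul_assoc, h1, one_mul]

theorem Rat.inv {Γ : Subgroup (K ≃+* K)} {R R' : Matrix ι ι K} (h : Rat Γ R) (h1 : R * R' = 1) (h2 : R' * R = 1) :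
    Rat Γ R' := by
  intro s hs
  have h3 : R'.map s * R = 1 := by
    calc R'.map s * R = R'.map s * R.map s := by rw [h s hs]
      _ = (R' * R).map s := (map_mul' s _ _).symm
      _ = 1 := by rw [h2, Matrix.map_one _ (map_zero s) (map_one s)]
  exact inv_uniq h3 h1

/-- The assumptions on the algebra `A`. -/
structure Crn (A : Submodule K (Matrix ι ι K)) (e J J' : Matrix ι ι K) (Γ : Subgroup (K ≃+* K)) : Prop where
  ne : e ≠ 0
  mem : e ∈ A
  mul : ∀ a ∈ A, ∀ b ∈ A, a * b ∈ A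
  left : ∀ a ∈ A, e * a = a
  right : ∀ a ∈ A, a * e = a
  cent : ∀ z ∈ A, (∀ a ∈ A, z * a = a * z) → ∃ c : K, z = c • e
  stab : ∀ s ∈ Γ, ∀ a ∈ A, a.map s ∈ A
  one : J * J' = 1
  one' : J' * J = 1
  rat : Rat Γ J
  adj : J' * eᵀ * J = e

/-- The matrix `R` with inverse `R'` acts on `A` as the conjugation by `U ∈ A` with inverse `V ∈ A`. -/
structure Imp (A : Submodule K (Matrix ι ι K)) (e R R' U V : Matrix ι ι K) : Prop where
  u : U ∈ A
  v : V ∈ A
  uv : U * V = e
  vu : V * U = e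
  act : ∀ X ∈ A, R * X * R' = U * X * V

/-- `adj(U) U = m`. -/
def Mul (e J J' U : Matrix ι ι K) (m : K) : Prop := J' * Uᵀ * J * U = m • e

variable {A : Submodule K (Matrix ι ι K)} {e J J' : Matrix ι ι K} {Γ : Subgroup (K ≃+* K)}

/-- A way to check `Imp`. -/
theorem Imp.mk' (C : Crn A e J J' Γ) {R R' U V : Matrix ι ι K} (hu : U ∈ A) (hv : V ∈ A)
    (huv : U * V = e) (hvu : V * U = e) (hR : ∀ X ∈ A, R * X * R' ∈ A) (h : ∀ X ∈ A, R * X * R' * U = U * X) :
    Imp A e R R' U V :=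
  ⟨hu, hv, huv, hvu, fun X hX => by
    calc R * X * R' = R * X * R' * e := (C.right _ (hR X hX)).symm
      _ = R * X * R' * U * V := by rw [← huv, Matrix.mul_assoc (R * X * R')]
      _ = U * X * V := by rw [h X hX]⟩

/-- Uniqueness up to a factor. -/
theorem Crn.uniq (C : Crn A e J J' Γ) {R R' U V U' V' : Matrix ι ι K} (h : Imp A e R R' U V)
    (h' : Imp A e R R' U' V') : ∃ c : K, c ≠ 0 ∧ U' = c • U ∧ V' = c⁻¹ • V := by
  have key : ∀ X ∈ A, U * X * V = U' * X * V' := fun X hX => by rw [← h.act X hX, ← h'.act X hX]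
  obtain ⟨c, hc⟩ := C.cent (V * U') (C.mul _ h.v _ h'.u) fun X hX => by
    calc V * U' * X = V * U' * (X * e) := by rw [C.right X hX]
      _ = V * U' * (X * (V' * U')) := by rw [h'.vu]
      _ = V * (U' * X * V') * U' := by noncomm_ring
      _ = V * (U * X * V) * U' := by rw [key X hX]
      _ = (V * U) * X * (V * U') := by noncomm_ring
      _ = X * (V * U') := by rw [h.vu, C.left X hX]
  have hU : U' = c • U := by
    calc U' = e * U' := (C.left _ h'.u).symm
      _ = (U * V) * U' := by rw [h.uv]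
      _ = U * (V * U') := Matrix.mul_assoc _ _ _
      _ = c • U := by rw [hc, Matrix.mul_smul, C.right _ h.u]
  have hc0 : c ≠ 0 := by
    rintro rfl
    have h1 := h'.uv
    rw [hU, zero_smul, Matrix.zero_mul] at h1
    exact C.ne h1.symm
  refine ⟨c, hc0, hU, ?_⟩
  have h1 : c • (V' - c⁻¹ • V) = 0 := by
    have h2 : V * U' * V' = V := by rw [Matrix.mul_assoc, h'.uv, C.right _ h.v]
    rw [hc, Matrix.smul_mul, C.left _ h'.v] at h2
    rw [smul_sub, h2, smul_smul, mul_inv_cancel₀ hc0, one_smul, sub_self]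
  exact sub_eq_zero.1 ((smul_eq_zero.1 h1).resolve_left hc0)

/-- products -/
theorem Imp.mul (C : Crn A e J J' Γ) {R R' S S' U V U' V' : Matrix ι ι K} (h : Imp A e R R' U V)
    (h' : Imp A e S S' U' V') : Imp A e (R * S) (S' * R') (U * U') (V' * V) := by
  refine ⟨C.mul _ h.u _ h'.u, C.mul _ h'.v _ h.v, ?_, ?_, fun X hX => ?_⟩
  · calc U * U' * (V' * V) = U * (U' * V') * V := by noncomm_ring
      _ = e := by rw [h'.uv, C.right _ h.u, h.uv]
  · calc V' * V * (U * U') = V' * (V * U) * U' := by noncomm_ring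
      _ = e := by rw [h.vu, C.right _ h'.v, h'.vu]
  · calc R * S * X * (S' * R') = R * (S * X * S') * R' := by noncomm_ring
      _ = R * (U' * X * V') * R' := by rw [h'.act X hX]
      _ = U * (U' * X * V') * V := h.act _ (C.mul _ (C.mul _ h'.u _ hX) _ h'.v)
      _ = _ := by noncomm_ring

/-- The unit is rational. -/
theorem Crn.rat_one (C : Crn A e J J' Γ) : Rat Γ e := by
  intro s hs
  have h1 : e.map s * e = e := by
    have h2 : e.map ⇑(s⁻¹ : K ≃+* K) ∈ A := C.stab _ (Γ.inv_mem hs) _ C.mem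
    have h3 : (e.map ⇑(s⁻¹ : K ≃+* K)).map s = e := by
      rw [map_map']
      ext i j
      simp
    calc e.map s * e = e.map s * (e.map ⇑(s⁻¹ : K ≃+* K)).map s := by rw [h3]
      _ = (e * e.map ⇑(s⁻¹ : K ≃+* K)).map s := (map_mul' s _ _).symm
      _ = e := by rw [C.left _ h2, h3]
  exact (C.right _ (C.stab s hs _ C.mem)).symm.trans h1

/-- The conjugate elements implement, too. -/
theorem Imp.map (C : Crn A e J J' Γ) {R R' U V : Matrix ι ι K} (hR : Rat Γ R) (hR' : Rat Γ R') (h : Imp A e R R' U V)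
    {s : K ≃+* K} (hs : s ∈ Γ) : Imp A e R R' (U.map s) (V.map s) := by
  refine ⟨C.stab s hs _ h.u, C.stab s hs _ h.v, ?_, ?_, fun X hX => ?_⟩
  · rw [← map_mul', h.uv, C.rat_one s hs]
  · rw [← map_mul', h.vu, C.rat_one s hs]
  · have h2 : X.map ⇑(s⁻¹ : K ≃+* K) ∈ A := C.stab _ (Γ.inv_mem hs) _ hX
    have h3 : (X.map ⇑(s⁻¹ : K ≃+* K)).map s = X := by
      rw [map_map']
      ext i j
      simp
    calc R * X * R' = R.map s * (X.map ⇑(s⁻¹ : K ≃+* K)).map s * R'.map s := by rw [hR s hs, hR' s hs, h3]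
      _ = (R * X.map ⇑(s⁻¹ : K ≃+* K) * R').map s := by rw [map_mul', map_mul']
      _ = (U * X.map ⇑(s⁻¹ : K ≃+* K) * V).map s := by rw [h.act _ h2]
      _ = U.map s * X * V.map s := by rw [map_mul', map_mul', h3]

/-- A rational choice: normalise one entry. -/
theorem Imp.exists_rat (C : Crn A e J J' Γ) {R R' U V : Matrix ι ι K} (hR : Rat Γ R) (hR' : Rat Γ R')
    (h : Imp A e R R' U V) : ∃ c : K, c ≠ 0 ∧ Imp A e R R' (c⁻¹ • U) (c • V) ∧ Rat Γ (c⁻¹ • U) ∧ Rat Γ (c • V) ∧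
      ∃ i j, c = U i j := by
  have hU0 : U ≠ 0 := by
    intro h0
    have h2 := h.uv
    rw [h0, Matrix.zero_mul] at h2
    exact C.ne h2.symm
  obtain ⟨i, j, hij⟩ : ∃ i j, U i j ≠ 0 := by
    by_contra hc
    push Not at hc
    exact hU0 (Matrix.ext fun i j => hc i j)
  have h' : Imp A e R R' ((U i j)⁻¹ • U) (U i j • V) := by
    refine ⟨A.smul_mem _ h.u, A.smul_mem _ h.v, ?_, ?_, fun X hX => ?_⟩
    · rw [Matrix.smul_mul, Matrix.mul_smul, smul_smul, inv_mul_cancel₀ hij, one_smul, h.uv]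
    · rw [Matrix.smul_mul, Matrix.mul_smul, smul_smul, mul_inv_cancel₀ hij, one_smul, h.vu]
    · rw [h.act X hX, Matrix.smul_mul, Matrix.smul_mul, Matrix.mul_smul, smul_smul, inv_mul_cancel₀ hij, one_smul]
  have hone : ((U i j)⁻¹ • U) i j = 1 := by
    rw [Matrix.smul_apply, smul_eq_mul, inv_mul_cancel₀ hij]
  have key : ∀ s ∈ Γ, ((U i j)⁻¹ • U).map s = (U i j)⁻¹ • U ∧ (U i j • V).map s = U i j • V := by
    intro s hs
    obtain ⟨d, hd0, hd1, hd2⟩ := C.uniq h' (h'.map C hR hR' hs)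
    have hd : d = 1 := by
      have h3 := congrFun (congrFun hd1 i) j
      rw [Matrix.map_apply, hone, map_one, Matrix.smul_apply, hone, smul_eq_mul, mul_one] at h3
      exact h3.symm
    rw [hd, one_smul] at hd1
    rw [hd, inv_one, one_smul] at hd2
    exact ⟨hd1, hd2⟩
  exact ⟨U i j, hij, h', fun s hs => (key s hs).1, fun s hs => (key s hs).2, i, j, rfl⟩

theorem Mul.smul {U : Matrix ι ι K} {m : K} (h : Mul e J J' U m) (c : K) : Mul e J J' (c • U) (c ^ 2 * m) := by
  unfold Mul at h ⊢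
  rw [Matrix.transpose_smul]
  simp only [Matrix.mul_smul, Matrix.smul_mul]
  rw [h, smul_smul, smul_smul]
  congr 1
  ring

/-- The multiplier of a product. -/
theorem Mul.mul (C : Crn A e J J' Γ) {U U' : Matrix ι ι K} {m m' : K} (hU' : U' ∈ A)
    (h : Mul e J J' U m) (h' : Mul e J J' U' m') : Mul e J J' (U * U') (m * m') := by
  unfold Mul at h h' ⊢
  rw [Matrix.transpose_mul]
  calc J' * (U'ᵀ * Uᵀ) * J * (U * U') = J' * U'ᵀ * 1 * Uᵀ * J * U * U' := by noncomm_ring
    _ = J' * U'ᵀ * (J * J') * Uᵀ * J * U * U' := by rw [C.one]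
    _ = J' * U'ᵀ * J * (J' * Uᵀ * J * U) * U' := by noncomm_ring
    _ = m • (J' * U'ᵀ * J * (e * U')) := by
      rw [h, Matrix.mul_smul, Matrix.smul_mul, Matrix.mul_assoc (J' * U'ᵀ * J)]
    _ = (m * m') • e := by rw [C.left _ hU', h', smul_smul]

/-- The multiplier of an invertible element is not zero. -/
theorem Mul.ne (C : Crn A e J J' Γ) {U V : Matrix ι ι K} {m : K} (huv : U * V = e) (h : Mul e J J' U m) :
    m ≠ 0 := by
  rintro rfl
  unfold Mul at h
  rw [zero_smul] at h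
  have h1 : Uᵀ * J * e = 0 := by
    calc Uᵀ * J * e = (J * J') * Uᵀ * J * (U * V) := by rw [C.one, huv, Matrix.one_mul]
      _ = J * (J' * Uᵀ * J * U) * V := by noncomm_ring
      _ = 0 := by rw [h, Matrix.mul_zero, Matrix.zero_mul]
  have h2 : Vᵀ * Uᵀ = eᵀ := by rw [← Matrix.transpose_mul, huv]
  have h3 : J' * eᵀ * J * e = 0 := by
    rw [← h2]
    calc J' * (Vᵀ * Uᵀ) * J * e = J' * Vᵀ * (Uᵀ * J * e) := by noncomm_ring
      _ = 0 := by rw [h1, Matrix.mul_zero]
  rw [C.adj, C.left _ C.mem] at h3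
  exact C.ne h3

/-- The multiplier of a rational element is rational. -/
theorem Mul.fix (C : Crn A e J J' Γ) {U : Matrix ι ι K} (hU : Rat Γ U) {m : K} (h : Mul e J J' U m) :
    ∀ s ∈ Γ, s m = m := by
  intro s hs
  have h2 := congrArg (fun a : Matrix ι ι K => a.map s) h
  simp only [map_mul'] at h2
  have h3 : Uᵀ.map s = Uᵀ := by
    rw [Matrix.transpose_map, hU s hs]
  rw [h3, map_smul', hU s hs, C.rat s hs, C.rat.inv C.one C.one' s hs, C.rat_one s hs] at h2
  have h5 : (s m - m) • e = 0 := by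
    rw [sub_smul, ← h2, ← h, sub_self]
  exact sub_eq_zero.1 ((smul_eq_zero.1 h5).resolve_right C.ne)

variable {k : Subfield K}

/-- The quotient of the multiplicative group by the squares. -/
abbrev Sq (k : Subfield K) : Type _ := kˣ ⧸ (powMonoidHom 2 : kˣ →* kˣ).range

/-- Uniqueness of the multiplier modulo squares. -/
theorem Crn.mul_uniq (C : Crn A e J J' Γ) (hk : ∀ x : K, (∀ s ∈ Γ, s x = x) → x ∈ k) {R R' U V U' V' : Matrix ι ι K}
    (h : Imp A e R R' U V) (h' : Imp A e R R' U' V') (hU : Rat Γ U) (hU' : Rat Γ U')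
    {m m' : kˣ} (hm : Mul e J J' U (m : k)) (hm' : Mul e J J' U' (m' : k)) :
    (QuotientGroup.mk m : Sq k) = QuotientGroup.mk m' := by
  obtain ⟨c, hc0, hc, -⟩ := C.uniq h h'
  have hU0 : U ≠ 0 := by
    intro h0
    have h2 := h.uv
    rw [h0, Matrix.zero_mul] at h2
    exact C.ne h2.symm
  have hck : c ∈ k := by
    refine hk c fun s hs => ?_
    have h1 : s c • U = c • U := by
      calc s c • U = s c • U.map s := by rw [hU s hs]
        _ = (c • U).map s := (map_smul' s c U).symm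
        _ = U'.map s := by rw [hc]
        _ = c • U := by rw [hU' s hs, hc]
    have h2 : (s c - c) • U = 0 := by rw [sub_smul, h1, sub_self]
    exact sub_eq_zero.1 ((smul_eq_zero.1 h2).resolve_right hU0)
  have hmm : ((m' : k) : K) = c ^ 2 * ((m : k) : K) := by
    have h1 : ((m' : k) : K) • e = (c ^ 2 * ((m : k) : K)) • e := by
      have h3 := hm.smul c
      rw [← hc] at h3
      unfold Mul at hm' h3
      rw [← hm', h3]
    have h2 : (((m' : k) : K) - c ^ 2 * ((m : k) : K)) • e = 0 := by rw [sub_smul, h1, sub_self]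
    exact sub_eq_zero.1 ((smul_eq_zero.1 h2).resolve_right C.ne)
  rw [QuotientGroup.eq]
  refine ⟨Units.mk0 (⟨c, hck⟩ : k) (fun e => hc0 (congrArg Subtype.val e)), ?_⟩
  rw [powMonoidHom_apply]
  ext
  rw [Units.val_pow_eq_pow_val, Units.val_mk0, Units.val_mul]
  push_cast
  rw [hmm]
  have hm0 : ((m : k) : K) ≠ 0 := by
    intro e
    exact m.ne_zero (Subtype.ext e)
  field_simp

/-- The multiplier class is a character. -/
theorem Crn.exists_char (C : Crn A e J J' Γ) (hk : ∀ x : K, (∀ s ∈ Γ, s x = x) → x ∈ k)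
    {G : Type*} [Group G] (ρ : G →* Matrix.GeneralLinearGroup ι K) (hrat : ∀ g, Rat Γ (ρ g).1)
    (himp : ∀ g, ∃ (U V : Matrix ι ι K) (m : K), Imp A e (ρ g).1 (ρ g)⁻¹.1 U V ∧ Mul e J J' U m) :
    ∃ χ : G →* Sq k, ∀ (g : G) (U V : Matrix ι ι K) (m : kˣ),
      Imp A e (ρ g).1 (ρ g)⁻¹.1 U V → Rat Γ U → Mul e J J' U (m : k) → χ g = QuotientGroup.mk m := by
  have h1 : ∀ g, (ρ g).1 * (ρ g)⁻¹.1 = 1 := fun g => Units.mul_inv _
  have h2 : ∀ g, (ρ g)⁻¹.1 * (ρ g).1 = 1 := fun g => Units.inv_mul _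
  have ex : ∀ g, ∃ (U V : Matrix ι ι K) (m : kˣ), Imp A e (ρ g).1 (ρ g)⁻¹.1 U V ∧ Rat Γ U ∧
      Mul e J J' U (m : k) := by
    intro g
    obtain ⟨U₀, V₀, m₀, h₀, hm₀⟩ := himp g
    obtain ⟨c, hc, h, hU, -, -⟩ := h₀.exists_rat C (hrat g) ((hrat g).inv (h1 g) (h2 g))
    have hm := hm₀.smul c⁻¹
    exact ⟨_, _, Units.mk0 (⟨_, hk _ (hm.fix C hU)⟩ : k) (fun e => hm.ne C h.uv (congrArg Subtype.val e)), h, hU, hm⟩
  choose U V m hI hR hM using ex
  refine ⟨MonoidHom.mk' (fun g => QuotientGroup.mk (m g)) fun g h => ?_, fun g U' V' m' hI' hR' hM' =>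
    C.mul_uniq hk (hI g) hI' (hR g) hR' (hM g) hM'⟩
  rw [← QuotientGroup.mk_mul]
  have h3 : (ρ (g * h)).1 = (ρ g).1 * (ρ h).1 := by rw [map_mul]; rfl
  have h4 : (ρ (g * h))⁻¹.1 = (ρ h)⁻¹.1 * (ρ g)⁻¹.1 := by rw [map_mul, _root_.mul_inv_rev]; rfl
  refine C.mul_uniq hk (hI (g * h)) (U' := U g * U h) (V' := V h * V g) ?_ (hR _) ?_ (hM _) ?_
  · rw [h3, h4]
    exact (hI g).mul C (hI h)
  · intro s hs
    rw [map_mul', hR g s hs, hR h s hs]
  · have := (hM g).mul C (hI h).u (hM h)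
    rw [Units.val_mul]
    push_cast
    exact this

/-- If `ρ σ` is a product of squares, then the multiplier of a rational element which implements `ρ σ` is a square. -/
theorem Crn.sq_of_recl (C : Crn A e J J' Γ) (hk : ∀ x : K, (∀ s ∈ Γ, s x = x) → x ∈ k)
    {G : Type*} [Group G] (ρ : G →* Matrix.GeneralLinearGroup ι K) (hrat : ∀ g, Rat Γ (ρ g).1)
    (himp : ∀ g, ∃ (U V : Matrix ι ι K) (m : K), Imp A e (ρ g).1 (ρ g)⁻¹.1 U V ∧ Mul e J J' U m)
    {σ : G} (hσ : ρ σ ∈ Subgroup.closure (Set.range fun g => ρ g ^ 2)) {U V : Matrix ι ι K} {m : K}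
    (hI : Imp A e (ρ σ).1 (ρ σ)⁻¹.1 U V) (hU : Rat Γ U) (hM : Mul e J J' U m) : ∃ c ∈ k, m = c ^ 2 := by
  obtain ⟨χ, hχ⟩ := C.exists_char hk ρ hrat himp
  -- the character kills products of squares
  have key : ∀ x ∈ Subgroup.closure (Set.range fun g => ρ g ^ 2), ∃ g, ρ g = x ∧ χ g = 1 := by
    intro x hx
    induction hx using Subgroup.closure_induction with
    | mem x hx =>
      obtain ⟨g, rfl⟩ := hx
      refine ⟨g ^ 2, by rw [map_pow], ?_⟩
      rw [map_pow]
      obtain ⟨u, hu⟩ := QuotientGroup.mk_surjective (χ g)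
      rw [← hu, ← QuotientGroup.mk_pow, QuotientGroup.eq_one_iff]
      exact ⟨u, rfl⟩
    | one => exact ⟨1, map_one _, map_one _⟩
    | mul x y _ _ ihx ihy =>
      obtain ⟨g, hg, hg'⟩ := ihx
      obtain ⟨h, hh, hh'⟩ := ihy
      exact ⟨g * h, by rw [map_mul, hg, hh], by
        have h5 := map_mul χ g h
        rw [hg', hh'] at h5
        exact h5.trans (_root_.mul_one (1 : Sq k))⟩
    | inv x _ ih =>
      obtain ⟨g, hg, hg'⟩ := ih
      exact ⟨g⁻¹, by rw [map_inv, hg], by rw [map_inv, hg', inv_one]⟩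
  obtain ⟨g, hg, hg'⟩ := key _ hσ
  have hmk : m ∈ k := hk _ (hM.fix C hU)
  let mu : kˣ := Units.mk0 (⟨m, hmk⟩ : k) (fun e => hM.ne C hI.uv (congrArg Subtype.val e))
  have h1 : χ g = QuotientGroup.mk mu := hχ g U V mu (by rw [hg]; exact hI) hU hM
  rw [hg'] at h1
  obtain ⟨c, hc⟩ := (QuotientGroup.eq_one_iff mu).1 h1.symm
  refine ⟨((c : k) : K), (c : k).2, ?_⟩
  have h2 := congrArg (fun u : kˣ => ((u : k) : K)) hc
  simp only [powMonoidHom_apply, Units.val_pow_eq_pow_val] at h2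
  push_cast at h2
  exact h2.symm

end Pool.Agent.Lib.H86E.Ch
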