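import Mathlib

/-!
# H86E: finite group-set combinatorics for the global Hodge-Tate type

`G` is any group (`Gal(Qbar/Q)`, or `Gal(Qbar/Q) × Gal(K/F)` when the monodromy is not connected)
acting on `H = Hom(F, Qbar)`, `B = Hom(E, Qbar)` and the set `X` of factors, `p : X → B`.
`T x ⊆ H` is the set of the `τ` whose Hodge-Tate cocharacter lies in the factor `x`.
-/

set_option autoImplicit false
set_option linter.unusedSectionVars false

namespace Pool.Agent.Lib.H86E

/-- Parity argument: if `t` lies in an odd number of the `T x` over `b`, and in none of them except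
possibly `x₀`, then it lies exactly in `T x₀`. -/
theorem unique_of_odd {H X : Type*} [DecidableEq H] (s : Finset X) (T : X → Finset H) (t : H)
    (x₀ : X) (hx₀ : x₀ ∈ s) (hodd : Odd (s.filter (fun x => t ∈ T x)).card)
    (hno : ∀ x ∈ s, x ≠ x₀ → t ∉ T x) : ∀ x ∈ s, (t ∈ T x ↔ x = x₀) := by
  classical
  have hsub : s.filter (fun x => t ∈ T x) ⊆ {x₀} := by
    intro x hx
    rw [Finset.mem_filter] at hx
    rw [Finset.mem_singleton]
    by_contra h
    exact hno x hx.1 h hx.2
  have h0 : t ∈ T x₀ := by
    by_contra h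
    have : s.filter (fun x => t ∈ T x) = ∅ := by
      rw [Finset.eq_empty_iff_forall_notMem]
      intro x hx
      have h1 := hsub hx
      rw [Finset.mem_singleton] at h1
      rw [Finset.mem_filter, h1] at hx
      exact h hx.2
    rw [this] at hodd
    simp at hodd
  intro x hx
  constructor
  · intro h
    by_contra h1
    exact hno x hx h1 h
  · rintro rfl
    exact h0

section Section

variable {G H B X : Type*} [Group G] [MulAction G H] [MulAction G B] [MulAction G X]

/-- The global Hodge-Tate type: an equivariant surjection `H × B → X` over `B`. -/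
theorem exists_type (p : X → B) (T : X → Set H)
    (hp : ∀ (g : G) (x : X), p (g • x) = g • p x)
    (hT : ∀ (g : G) (x : X) (t : H), t ∈ T x → g • t ∈ T (g • x))
    (hU : ∀ (t : H) (b : B), ∃! x, p x = b ∧ t ∈ T x)
    (hN : ∀ x, (T x).Nonempty) :
    ∃ s : H → B → X, (∀ t b, p (s t b) = b) ∧ (∀ (g : G) t b, s (g • t) (g • b) = g • s t b) ∧
      (∀ x, ∃ t, s t (p x) = x) ∧ ∀ t x, t ∈ T x ↔ s t (p x) = x := by
  choose s hs hs' using hU
  refine ⟨s, fun t b => (hs t b).1, ?_, ?_, ?_⟩
  · intro g t b
    refine (hs' (g • t) (g • b) (g • s t b) ⟨?_, ?_⟩).symm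
    · rw [hp, (hs t b).1]
    · exact hT g _ t (hs t b).2
  · intro x
    obtain ⟨t, ht⟩ := hN x
    exact ⟨t, (hs' t (p x) x ⟨rfl, ht⟩).symm⟩
  · intro t x
    constructor
    · intro ht
      exact (hs' t (p x) x ⟨rfl, ht⟩).symm
    · intro h
      have := (hs t (p x)).2
      rw [h] at this
      exact this

/-- `F = Q`: one factor over every `b`. -/
theorem injective_of_subsingleton [Subsingleton H] (p : X → B) (s : H → B → X)
    (hsurj : ∀ x, ∃ t, s t (p x) = x) : Function.Injective p := by
  intro x y hxy
  obtain ⟨t, ht⟩ := hsurj x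
  obtain ⟨t', ht'⟩ := hsurj y
  rw [← ht, ← ht', hxy, Subsingleton.elim t t']

/-- `E ⊗ F` a field: `G` is transitive on the factors. -/
theorem transitive (p : X → B) (s : H → B → X)
    (heq : ∀ (g : G) t b, s (g • t) (g • b) = g • s t b)
    (hsurj : ∀ x, ∃ t, s t (p x) = x)
    (htr : ∀ (t t' : H) (b b' : B), ∃ g : G, g • t = t' ∧ g • b = b') :
    ∀ x y : X, ∃ g : G, g • x = y := by
  intro x y
  obtain ⟨t, ht⟩ := hsurj x
  obtain ⟨t', ht'⟩ := hsurj y
  obtain ⟨g, h1, h2⟩ := htr t t' (p x) (p y)
  refine ⟨g, ?_⟩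
  rw [← ht, ← heq, h1, h2, ht']

/-- `E ⊗ F` a field: the number of factors over `b` divides `|H| = [F : Q]`. -/
theorem card_fiber_dvd [Fintype H] [Fintype X] [DecidableEq B] (p : X → B) (s : H → B → X)
    (hps : ∀ t b, p (s t b) = b)
    (heq : ∀ (g : G) t b, s (g • t) (g • b) = g • s t b)
    (hsurj : ∀ x, ∃ t, s t (p x) = x)
    (htr : ∀ (t t' : H) (b b' : B), ∃ g : G, g • t = t' ∧ g • b = b') (b : B) :
    (Finset.univ.filter (fun x => p x = b)).card ∣ Fintype.card H := by
  classical
  rcases isEmpty_or_nonempty X with hX | ⟨⟨x₀⟩⟩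
  · have : Fintype.card H = 0 ∨ True := Or.inr trivial
    rcases isEmpty_or_nonempty H with hH | ⟨⟨t⟩⟩
    · rw [Fintype.card_eq_zero]
      exact dvd_zero _
    · exact (hX.false (s t b)).elim
  -- all fibres of `t ↦ s t b` over points of the fibre have the same size
  by_cases hH : Nonempty H
  · obtain ⟨t₀⟩ := hH
    set c := (Finset.univ.filter (fun t : H => s t b = s t₀ b)).card with hc
    have hfib : ∀ x ∈ Finset.univ.filter (fun x => p x = b),
        (Finset.univ.filter (fun t : H => s t b = x)).card = c := by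
      intro x hx
      rw [Finset.mem_filter] at hx
      obtain ⟨t₁, ht₁⟩ := hsurj x
      rw [hx.2] at ht₁
      obtain ⟨g, hg1, hg2⟩ := htr t₁ t₀ b b
      have hg2' : g⁻¹ • b = b := by
        rw [inv_smul_eq_iff, hg2]
      refine Finset.card_bij (fun t _ => g • t) ?_ ?_ ?_
      · intro t ht
        rw [Finset.mem_filter] at ht ⊢
        refine ⟨Finset.mem_univ _, ?_⟩
        have h1 := heq g t b
        rw [hg2, ht.2] at h1
        have h2 := heq g t₁ b
        rw [hg1, hg2, ht₁] at h2
        rw [h1, h2]
      · intro t _ t' _ h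
        exact MulAction.injective g h
      · intro t ht
        rw [Finset.mem_filter] at ht
        refine ⟨g⁻¹ • t, ?_, smul_inv_smul g t⟩
        rw [Finset.mem_filter]
        refine ⟨Finset.mem_univ _, ?_⟩
        have h1 := heq g⁻¹ t b
        rw [hg2', ht.2] at h1
        have h2 := heq g t₁ b
        rw [hg1, hg2, ht₁] at h2
        rw [h1, h2, inv_smul_smul]
    have hsum : Fintype.card H =
        ∑ x ∈ Finset.univ.filter (fun x => p x = b),
          (Finset.univ.filter (fun t : H => s t b = x)).card := by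
      rw [← Finset.card_univ]
      refine Finset.card_eq_sum_card_fiberwise (f := fun t => s t b) ?_
      intro t _
      simp [hps]
    rw [hsum, Finset.sum_congr rfl hfib, Finset.sum_const, smul_eq_mul]
    exact dvd_mul_right _ _
  · have : IsEmpty H := not_nonempty_iff.mp hH
    rw [Fintype.card_eq_zero]
    exact dvd_zero _

/-- Invariant functions are constant when `G` is transitive: dimensions. -/
theorem prod_eq_pow [Fintype X] [DecidableEq B] {M : Type*} [CommMonoid M] (p : X → B)
    (htr : ∀ x y : X, ∃ g : G, g • x = y) (a : X → M) (ha : ∀ (g : G) x, a (g • x) = a x)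
    (x₀ : X) (b : B) :
    ∏ x ∈ Finset.univ.filter (fun x => p x = b), a x =
      a x₀ ^ (Finset.univ.filter (fun x => p x = b)).card := by
  classical
  rw [Finset.prod_congr rfl (g := fun _ => a x₀) (fun x _ => ?_), Finset.prod_const]
  obtain ⟨g, hg⟩ := htr x₀ x
  rw [← hg, ha]

/-- The number of factors is odd if the product of their signs is `-1`. -/
theorem odd_of_sign [Fintype X] [DecidableEq B] (p : X → B)
    (htr : ∀ x y : X, ∃ g : G, g • x = y) (e : X → ℤˣ) (he : ∀ (g : G) x, e (g • x) = e x)
    (x₀ : X) (b : B) (hb : ∏ x ∈ Finset.univ.filter (fun x => p x = b), e x = -1) :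
    Odd (Finset.univ.filter (fun x => p x = b)).card := by
  classical
  rw [prod_eq_pow p htr e he x₀ b] at hb
  by_contra h
  rw [Nat.not_odd_iff_even] at h
  rcases Int.units_eq_one_or (e x₀) with h1 | h1
  · rw [h1, one_pow] at hb
    exact absurd hb (by decide)
  · rw [h1, h.neg_one_pow] at hb
    exact absurd hb (by decide)

/-- The size of the fibre is at most `|H|` (any `F`). -/
theorem card_fiber_le [Fintype H] [Fintype X] [DecidableEq B] (p : X → B) (s : H → B → X)
    (hsurj : ∀ x, ∃ t, s t (p x) = x) (b : B) :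
    (Finset.univ.filter (fun x => p x = b)).card ≤ Fintype.card H := by
  classical
  rw [← Finset.card_univ]
  refine Finset.card_le_card_of_surjOn (fun t => s t b) ?_
  intro x hx
  simp only [Finset.coe_filter, Finset.mem_univ, true_and, Set.mem_ofPred_eq] at hx
  obtain ⟨t, ht⟩ := hsurj x
  exact ⟨t, by simp, by rw [← hx]; exact ht⟩

end Section

end Pool.Agent.Lib.H86E
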