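import Mathlib

/-!
# H86E: multiplier classes of a factor are characters, and they are traces

`φ : M_Ω(K) → M_ι(K)` is a (non unital) injective homomorphism of matrix algebras; its image `A` is the algebra generated by a
simple factor of the Lie algebra acting on a component.  `Γ` is a group of automorphisms of `K` with fixed field `k` which preserves `A`
(acting on the entries), `J` a rational nondegenerate symmetric or alternating form whose adjunction preserves `A`,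
`ρ : G → GL_ι(K)` a representation with entries in `k` by similitudes of `J` normalising `A`.

* `exists_char`: there is a homomorphism `χ : G → kˣ / squares` with `χ g = m` whenever `g` acts on `A` as `Int (φ U)` with `φ U`
  rational and `(φ U)* φ U = m`.
* `char_trace`: if the trace `θ` of `Ad (ρ g)` on `A` is not zero it lies in `k` and `χ g = θ` modulo squares.
-/

set_option autoImplicit false
set_option linter.unusedSectionVars false

namespace Pool.Agent.Lib.H86E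

open Matrix

section basics

variable {Ω K : Type*} [Fintype Ω] [DecidableEq Ω] [Field K]

/-- Skolem-Noether for matrix algebras. -/
theorem inner_of_algEquiv (f : Matrix Ω Ω K ≃ₐ[K] Matrix Ω Ω K) :
    ∃ U V : Matrix Ω Ω K, U * V = 1 ∧ V * U = 1 ∧ ∀ X, f X = U * X * V := by
  let F : Module.End K (Ω → K) ≃ₐ[K] Module.End K (Ω → K) :=
    (Matrix.toLinAlgEquiv'.symm.trans f).trans Matrix.toLinAlgEquiv'
  obtain ⟨T, hT⟩ := AlgEquiv.eq_linearEquivConjAlgEquiv F
  refine ⟨LinearMap.toMatrixAlgEquiv' (T : (Ω → K) →ₗ[K] (Ω → K)),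
    LinearMap.toMatrixAlgEquiv' (T.symm : (Ω → K) →ₗ[K] (Ω → K)), ?_, ?_, fun X => ?_⟩
  · rw [← map_mul]
    have : ((T : (Ω → K) →ₗ[K] (Ω → K)) * (T.symm : (Ω → K) →ₗ[K] (Ω → K)) : Module.End K (Ω → K)) = 1 := by
      ext x
      simp [Module.End.mul_apply]
    rw [this, map_one]
  · rw [← map_mul]
    have : ((T.symm : (Ω → K) →ₗ[K] (Ω → K)) * (T : (Ω → K) →ₗ[K] (Ω → K)) : Module.End K (Ω → K)) = 1 := by
      ext x
      simp [Module.End.mul_apply]
    rw [this, map_one]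
  · have h1 : f X = Matrix.toLinAlgEquiv'.symm (F (Matrix.toLinAlgEquiv' X)) := by
      simp [F]
    rw [h1, hT]
    have h2 : (T.conjAlgEquiv K) (Matrix.toLinAlgEquiv' X) =
        ((T : (Ω → K) →ₗ[K] (Ω → K)) * (Matrix.toLinAlgEquiv' X) * (T.symm : (Ω → K) →ₗ[K] (Ω → K)) :
          Module.End K (Ω → K)) := by
      ext x
      simp [Module.End.mul_apply, LinearEquiv.conjAlgEquiv_apply]
    rw [h2, map_mul, map_mul, AlgEquiv.symm_apply_apply]
    rfl

/-- A matrix which commutes with all matrices is scalar. -/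
theorem scalar_of_comm {Z : Matrix Ω Ω K} (h : ∀ X, Z * X = X * Z) : ∃ c : K, Z = c • (1 : Matrix Ω Ω K) := by
  obtain ⟨c, hc⟩ := Matrix.mem_range_scalar_iff_commute_single'.mpr fun i j => (show Commute (single i j 1) Z from (h _).symm)
  refine ⟨c, ?_⟩
  rw [← hc, Matrix.scalar_apply, Matrix.smul_one_eq_diagonal]

/-- `tr (X ↦ U X V) = tr U tr V`. -/
theorem trace_ad (U V : Matrix Ω Ω K) :
    LinearMap.trace K (Matrix Ω Ω K) (LinearMap.mulLeft K U ∘ₗ LinearMap.mulRight K V) = U.trace * V.trace := by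
  classical
  rw [LinearMap.trace_eq_matrix_trace K (Matrix.stdBasis K Ω Ω), Matrix.trace]
  simp only [Matrix.diag_apply, LinearMap.toMatrix_apply]
  rw [Fintype.sum_prod_type, Matrix.trace, Matrix.trace, Finset.sum_mul_sum]
  refine Finset.sum_congr rfl fun i _ => Finset.sum_congr rfl fun j _ => ?_
  rw [Matrix.stdBasis_eq_single]
  have h1 : (LinearMap.mulLeft K U ∘ₗ LinearMap.mulRight K V) (single i j (1 : K)) = U * (single i j 1 * V) := by
    simp [LinearMap.comp_apply]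
  rw [h1]
  have h2 : ∀ X : Matrix Ω Ω K, ((Matrix.stdBasis K Ω Ω).repr X) (i, j) = X i j := by
    intro X
    rw [Matrix.stdBasis]
    simp
  rw [h2, Matrix.diag_apply, Matrix.diag_apply, ← Matrix.mul_assoc, Matrix.mul_apply, Finset.sum_eq_single j]
  · simp
  · intro l _ hl
    rw [Matrix.mul_single_apply_of_ne (hbj := hl)]
    simp
  · simp

end basics

section fac

variable {ι Ω K : Type*} [Fintype ι] [DecidableEq ι] [Fintype Ω] [DecidableEq Ω] [Field K]

/-- `R a R'` acts on the image of `φ` as `Int (φ U)`. -/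
def Imp (φ : Matrix Ω Ω K →ₙₐ[K] Matrix ι ι K) (R R' : Matrix ι ι K) (U V : Matrix Ω Ω K) : Prop :=
  U * V = 1 ∧ V * U = 1 ∧ ∀ X, R * φ X * R' = φ (U * X * V)

/-- A matrix fixed by the automorphisms in `Γ`. -/
def Rat (Γ : Subgroup (K ≃+* K)) (a : Matrix ι ι K) : Prop := ∀ s ∈ Γ, a.map s = a

variable {φ : Matrix Ω Ω K →ₙₐ[K] Matrix ι ι K}

theorem map_mul' (s : K ≃+* K) (a b : Matrix ι ι K) : (a * b).map s = a.map s * b.map s :=
  Matrix.map_mul

theorem map_map' (s t : K ≃+* K) (a : Matrix ι ι K) : (a.map s).map t = a.map (s.trans t) := by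
  ext i j
  simp

/-- An invertible matrix which normalises the image acts by an inner automorphism. -/
theorem exists_imp (hφ : Function.Injective φ) {R R' : Matrix ι ι K} (h2 : R' * R = 1)
    (hn : ∀ X, ∃ Y, φ Y = R * φ X * R') : ∃ U V, Imp φ R R' U V := by
  choose f hf using hn
  have fmul : ∀ X Y, f (X * Y) = f X * f Y := by
    intro X Y
    refine hφ ?_
    rw [hf, map_mul, map_mul, hf, hf]
    calc R * (φ X * φ Y) * R' = R * φ X * 1 * φ Y * R' := by noncomm_ring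
      _ = R * φ X * (R' * R) * φ Y * R' := by rw [h2]
      _ = _ := by noncomm_ring
  have fadd : ∀ X Y, f (X + Y) = f X + f Y := by
    intro X Y
    refine hφ ?_
    rw [hf, map_add, map_add, hf, hf]
    noncomm_ring
  have fsmul : ∀ (c : K) X, f (c • X) = c • f X := by
    intro c X
    refine hφ ?_
    rw [hf, map_smul, map_smul, hf, Matrix.mul_smul, Matrix.smul_mul]
  let F : Matrix Ω Ω K →ₗ[K] Matrix Ω Ω K := ⟨⟨f, fadd⟩, fsmul⟩
  have Finj : Function.Injective F := by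
    intro X Y h
    have h3 : f X = f Y := h
    have h4 : R * φ X * R' = R * φ Y * R' := by rw [← hf, ← hf, h3]
    refine hφ ?_
    calc φ X = (R' * R) * φ X * (R' * R) := by rw [h2, Matrix.one_mul, Matrix.mul_one]
      _ = R' * (R * φ X * R') * R := by noncomm_ring
      _ = R' * (R * φ Y * R') * R := by rw [h4]
      _ = (R' * R) * φ Y * (R' * R) := by noncomm_ring
      _ = φ Y := by rw [h2, Matrix.one_mul, Matrix.mul_one]
  have Fsurj : Function.Surjective F := LinearMap.injective_iff_surjective.1 Finj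
  have fone : f 1 = 1 := by
    obtain ⟨Z, hZ⟩ := Fsurj 1
    have hZ' : f Z = 1 := hZ
    calc f 1 = f 1 * f Z := by rw [hZ', Matrix.mul_one]
      _ = f (1 * Z) := (fmul _ _).symm
      _ = 1 := by rw [Matrix.one_mul, hZ']
  let G : Matrix Ω Ω K →ₐ[K] Matrix Ω Ω K := AlgHom.ofLinearMap F fone fmul
  obtain ⟨U, V, hUV, hVU, h⟩ := inner_of_algEquiv (AlgEquiv.ofBijective G ⟨Finj, Fsurj⟩)
  refine ⟨U, V, hUV, hVU, fun X => ?_⟩
  rw [← h X, ← hf]
  rfl

/-- Uniqueness up to a factor. -/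
theorem Imp.uniq (hφ : Function.Injective φ) {R R' : Matrix ι ι K} {U V U' V' : Matrix Ω Ω K}
    (h : Imp φ R R' U V) (h' : Imp φ R R' U' V') [Nonempty Ω] :
    ∃ c : K, c ≠ 0 ∧ U' = c • U ∧ V' = c⁻¹ • V := by
  obtain ⟨hUV, hVU, hX⟩ := h
  obtain ⟨hUV', hVU', hX'⟩ := h'
  have key : ∀ X, U * X * V = U' * X * V' := fun X => hφ (by rw [← hX, ← hX'])
  obtain ⟨c, hc⟩ := scalar_of_comm (Z := V * U') fun X => by
    calc V * U' * X = V * U' * X * 1 := by rw [Matrix.mul_one]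
      _ = V * U' * X * (V' * U') := by rw [hVU']
      _ = V * (U' * X * V') * U' := by noncomm_ring
      _ = V * (U * X * V) * U' := by rw [key]
      _ = (V * U) * X * (V * U') := by noncomm_ring
      _ = X * (V * U') := by rw [hVU, Matrix.one_mul]
  have hU : U' = c • U := by
    calc U' = (U * V) * U' := by rw [hUV, Matrix.one_mul]
      _ = U * (V * U') := Matrix.mul_assoc _ _ _
      _ = c • U := by rw [hc, Matrix.mul_smul, Matrix.mul_one]
  have hc0 : c ≠ 0 := by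
    rintro rfl
    rw [zero_smul] at hU
    rw [hU, Matrix.zero_mul] at hUV'
    exact zero_ne_one hUV'
  refine ⟨c, hc0, hU, ?_⟩
  have h1 : c • (V' - c⁻¹ • V) = 0 := by
    have h2 : V * U' * V' = V := by rw [Matrix.mul_assoc, hUV', Matrix.mul_one]
    rw [hc, Matrix.smul_mul, Matrix.one_mul] at h2
    rw [smul_sub, h2, smul_smul, mul_inv_cancel₀ hc0, one_smul, sub_self]
  exact sub_eq_zero.1 ((smul_eq_zero.1 h1).resolve_left hc0)

/-- products -/
theorem Imp.mul {R R' S S' : Matrix ι ι K} {U V U' V' : Matrix Ω Ω K} (h : Imp φ R R' U V) (h' : Imp φ S S' U' V') :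
    Imp φ (R * S) (S' * R') (U * U') (V' * V) := by
  obtain ⟨hUV, hVU, hX⟩ := h
  obtain ⟨hUV', hVU', hX'⟩ := h'
  refine ⟨?_, ?_, fun X => ?_⟩
  · calc U * U' * (V' * V) = U * (U' * V') * V := by noncomm_ring
      _ = 1 := by rw [hUV', Matrix.mul_one, hUV]
  · calc V' * V * (U * U') = V' * (V * U) * U' := by noncomm_ring
      _ = 1 := by rw [hVU, Matrix.mul_one, hVU']
  · calc R * S * φ X * (S' * R') = R * (S * φ X * S') * R' := by noncomm_ring
      _ = R * φ (U' * X * V') * R' := by rw [hX']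
      _ = φ (U * (U' * X * V') * V) := hX _
      _ = _ := by
        refine congrArg φ ?_
        noncomm_ring

/-- The trace of `Ad R` on the image. -/
theorem Imp.trace_eq (hφ : Function.Injective φ) {R R' : Matrix ι ι K} {U V : Matrix Ω Ω K} (h : Imp φ R R' U V)
    (T : Matrix Ω Ω K →ₗ[K] Matrix Ω Ω K) (hT : ∀ X, φ (T X) = R * φ X * R') :
    LinearMap.trace K _ T = U.trace * V.trace := by
  rw [← trace_ad]
  refine congrArg _ (LinearMap.ext fun X => hφ ?_)
  rw [hT, h.2.2]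
  refine congrArg φ ?_
  simp [LinearMap.comp_apply, Matrix.mul_assoc]

variable {Γ : Subgroup (K ≃+* K)}

/-- The automorphisms act on the source. -/
theorem exists_transport (hφ : Function.Injective φ) (stab : ∀ s ∈ Γ, ∀ X, ∃ Y, φ Y = (φ X).map s) :
    ∃ t : (K ≃+* K) → Matrix Ω Ω K → Matrix Ω Ω K, (∀ s ∈ Γ, ∀ X, φ (t s X) = (φ X).map s) ∧
      (∀ s ∈ Γ, ∀ X Y, t s (X * Y) = t s X * t s Y) ∧ (∀ s ∈ Γ, t s 1 = 1) ∧
      (∀ s ∈ Γ, ∀ X, ∃ Y, t s Y = X) := by
  choose! t ht using stab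
  have h1 : ∀ s ∈ Γ, ∀ X Y, t s (X * Y) = t s X * t s Y := by
    intro s hs X Y
    refine hφ ?_
    rw [ht s hs, map_mul, map_mul, ht s hs, ht s hs]
    exact map_mul' s _ _
  have h2 : ∀ s ∈ Γ, ∀ X, ∃ Y, t s Y = X := by
    intro s hs X
    refine ⟨t s⁻¹ X, hφ ?_⟩
    rw [ht s hs, ht s⁻¹ (Γ.inv_mem hs), map_map']
    ext i j
    simp
  refine ⟨t, ht, h1, fun s hs => ?_, h2⟩
  obtain ⟨Z, hZ⟩ := h2 s hs 1
  calc t s 1 = t s 1 * t s Z := by rw [hZ, Matrix.mul_one]
    _ = t s (1 * Z) := (h1 s hs _ _).symm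
    _ = 1 := by rw [Matrix.one_mul, hZ]

/-- A rational choice. -/
theorem Imp.exists_rat (hφ : Function.Injective φ) (stab : ∀ s ∈ Γ, ∀ X, ∃ Y, φ Y = (φ X).map s)
    {R R' : Matrix ι ι K} (hR : Rat Γ R) (hR' : Rat Γ R') {U V : Matrix Ω Ω K} (h : Imp φ R R' U V) [Nonempty Ω] :
    ∃ U' V', Imp φ R R' U' V' ∧ Rat Γ (φ U') ∧ Rat Γ (φ V') := by
  have hU0 : φ U ≠ 0 := by
    intro h0
    have h1 : U = 0 := hφ (by rw [h0, map_zero])
    have h2 := h.1
    rw [h1, Matrix.zero_mul] at h2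
    exact zero_ne_one h2
  obtain ⟨i, j, hij⟩ : ∃ i j, φ U i j ≠ 0 := by
    by_contra hc
    push Not at hc
    exact hU0 (Matrix.ext fun i j => hc i j)
  set c : K := φ U i j with hcdef
  have h' : Imp φ R R' (c⁻¹ • U) (c • V) := by
    refine ⟨?_, ?_, fun X => ?_⟩
    · rw [Matrix.smul_mul, Matrix.mul_smul, smul_smul, inv_mul_cancel₀ hij, one_smul, h.1]
    · rw [Matrix.smul_mul, Matrix.mul_smul, smul_smul, mul_inv_cancel₀ hij, one_smul, h.2.1]
    · rw [h.2.2]
      refine congrArg φ ?_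
      rw [Matrix.smul_mul, Matrix.smul_mul, Matrix.mul_smul, smul_smul, inv_mul_cancel₀ hij, one_smul]
  have hone : φ (c⁻¹ • U) i j = 1 := by
    rw [map_smul, Matrix.smul_apply, smul_eq_mul, ← hcdef, inv_mul_cancel₀ hij]
  obtain ⟨t, ht, tmul, tone, tsurj⟩ := exists_transport hφ stab
  have key : ∀ s ∈ Γ, t s (c⁻¹ • U) = c⁻¹ • U ∧ t s (c • V) = c • V := by
    intro s hs
    have h2 : Imp φ R R' (t s (c⁻¹ • U)) (t s (c • V)) := by
      refine ⟨by rw [← tmul s hs, h'.1, tone s hs], by rw [← tmul s hs, h'.2.1, tone s hs], fun X => ?_⟩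
      obtain ⟨Y, rfl⟩ := tsurj s hs X
      rw [← tmul s hs, ← tmul s hs, ht s hs, ht s hs, ← h'.2.2, map_mul', map_mul', hR s hs, hR' s hs]
    obtain ⟨d, hd0, hd1, hd2⟩ := h'.uniq hφ h2
    have hd : d = 1 := by
      have h3 : φ (t s (c⁻¹ • U)) i j = d := by
        rw [hd1, map_smul, Matrix.smul_apply, hone, smul_eq_mul, mul_one]
      rw [ht s hs, Matrix.map_apply, hone, map_one] at h3
      exact h3.symm
    rw [hd, one_smul] at hd1
    rw [hd, inv_one, one_smul] at hd2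
    exact ⟨hd1, hd2⟩
  refine ⟨_, _, h', fun s hs => ?_, fun s hs => ?_⟩
  · rw [← ht s hs, (key s hs).1]
  · rw [← ht s hs, (key s hs).2]

end fac

section star

variable {ι Ω K : Type*} [Fintype ι] [DecidableEq ι] [Fintype Ω] [DecidableEq Ω] [Field K]

/-- The assumptions: `φ` is injective, its image is stable under `Γ` and under the adjunction of the rational symmetric or
alternating form `J` (`J'` is the inverse). -/
structure Dat (φ : Matrix Ω Ω K →ₙₐ[K] Matrix ι ι K) (Γ : Subgroup (K ≃+* K)) (J J' : Matrix ι ι K) : Prop where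
  inj : Function.Injective φ
  stab : ∀ s ∈ Γ, ∀ X, ∃ Y, φ Y = (φ X).map s
  mul : J * J' = 1
  mul' : J' * J = 1
  sym : ∃ ε : K, Jᵀ = ε • J ∧ ε * ε = 1
  rat : Rat Γ J
  st : ∀ X, ∃ Y, φ Y = J' * (φ X)ᵀ * J

variable {φ : Matrix Ω Ω K →ₙₐ[K] Matrix ι ι K} {Γ : Subgroup (K ≃+* K)} {J J' : Matrix ι ι K}

/-- Uniqueness of inverses. -/
theorem inv_uniq {R : Type*} [Ring R] {a b c : R} (h1 : b * a = 1) (h2 : a * c = 1) : b = c := by
  calc b = b * (a * c) := by rw [h2, mul_one]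
    _ = c := by rw [← mul_assoc, h1, one_mul]

theorem Rat.inv {R R' : Matrix ι ι K} (h : Rat Γ R) (h1 : R * R' = 1) (h2 : R' * R = 1) : Rat Γ R' := by
  intro s hs
  have h3 : R'.map s * R = 1 := by
    calc R'.map s * R = R'.map s * R.map s := by rw [h s hs]
      _ = (R' * R).map s := (map_mul' s _ _).symm
      _ = 1 := by rw [h2, Matrix.map_one _ (map_zero s) (map_one s)]
  exact inv_uniq h3 h1

/-- `(φ U)* φ U = m`. -/
def Mul (φ : Matrix Ω Ω K →ₙₐ[K] Matrix ι ι K) (J J' : Matrix ι ι K) (U : Matrix Ω Ω K) (m : K) : Prop :=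
  J' * (φ U)ᵀ * J * φ U = m • φ 1

/-- The adjunction on the source. -/
theorem Dat.exists_star (D : Dat φ Γ J J') :
    ∃ t : Matrix Ω Ω K → Matrix Ω Ω K, (∀ X, φ (t X) = J' * (φ X)ᵀ * J) ∧ (∀ X Y, t (X * Y) = t Y * t X) ∧
      t 1 = 1 ∧ (∀ X, t (t X) = X) ∧ (∀ X Y, t (X + Y) = t X + t Y) ∧ (∀ (c : K) X, t (c • X) = c • t X) := by
  choose t ht using D.st
  have h1 : ∀ X Y, t (X * Y) = t Y * t X := by
    intro X Y
    refine D.inj ?_
    rw [ht, map_mul, map_mul, ht, ht, Matrix.transpose_mul]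
    calc J' * ((φ Y)ᵀ * (φ X)ᵀ) * J = J' * (φ Y)ᵀ * 1 * (φ X)ᵀ * J := by noncomm_ring
      _ = J' * (φ Y)ᵀ * (J * J') * (φ X)ᵀ * J := by rw [D.mul]
      _ = _ := by noncomm_ring
  have h2 : ∀ X, t (t X) = X := by
    intro X
    refine D.inj ?_
    obtain ⟨ε, hε, hε2⟩ := D.sym
    have hε' : J'ᵀ = ε • J' := by
      have h3 : J'ᵀ * Jᵀ = 1 := by rw [← Matrix.transpose_mul, D.mul, Matrix.transpose_one]
      have h4 : Jᵀ * (ε • J') = 1 := by
        rw [hε, Matrix.smul_mul, Matrix.mul_smul, smul_smul, hε2, one_smul, D.mul]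
      exact inv_uniq h3 h4
    rw [ht, ht, Matrix.transpose_mul, Matrix.transpose_mul, Matrix.transpose_transpose, hε, hε']
    calc J' * (ε • J * (φ X * ε • J')) * J = (ε * ε) • ((J' * J) * φ X * (J' * J)) := by
          simp only [Matrix.mul_smul, Matrix.smul_mul, smul_smul]
          congr 1
          noncomm_ring
      _ = φ X := by rw [hε2, one_smul, D.mul', Matrix.one_mul, Matrix.mul_one]
  refine ⟨t, ht, h1, ?_, h2, fun X Y => ?_, fun c X => ?_⟩
  · calc t 1 = t 1 * t (t 1) := by rw [h2, Matrix.mul_one]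
      _ = t (t 1 * 1) := (h1 _ _).symm
      _ = 1 := by rw [Matrix.mul_one, h2]
  · refine D.inj ?_
    rw [ht, map_add, map_add, ht, ht, Matrix.transpose_add]
    noncomm_ring
  · refine D.inj ?_
    rw [ht, map_smul, map_smul, ht, Matrix.transpose_smul, Matrix.mul_smul, Matrix.smul_mul]

/-- The multiplier exists, and its relation to the traces. -/
theorem Dat.exists_mul (D : Dat φ Γ J J') {R R' : Matrix ι ι K} (h1 : R * R' = 1) (h2 : R' * R = 1) {c : K}
    (hc : Rᵀ * J * R = c • J) {U V : Matrix Ω Ω K} (h : Imp φ R R' U V) [Nonempty Ω] [Nonempty ι] :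
    ∃ m : K, m ≠ 0 ∧ Mul φ J J' U m ∧ U.trace = m * V.trace := by
  obtain ⟨t, ht, tmul, tone, tt, tadd, tsmul⟩ := D.exists_star
  have hRc : Rᵀ * J = c • (J * R') := by
    calc Rᵀ * J = Rᵀ * J * (R * R') := by rw [h1, Matrix.mul_one]
      _ = (Rᵀ * J * R) * R' := by noncomm_ring
      _ = c • (J * R') := by rw [hc, Matrix.smul_mul]
  have hc0 : c ≠ 0 := by
    rintro rfl
    rw [zero_smul] at hRc
    have h3 : (1 : Matrix ι ι K) = 0 := by
      calc (1 : Matrix ι ι K) = (R * R')ᵀ * (J * J') := by rw [h1, D.mul, Matrix.transpose_one, Matrix.one_mul]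
        _ = R'ᵀ * (Rᵀ * J) * J' := by rw [Matrix.transpose_mul]; noncomm_ring
        _ = 0 := by rw [hRc, Matrix.mul_zero, Matrix.zero_mul]
    exact one_ne_zero h3
  have hR1 : J' * Rᵀ * J = c • R' := by
    calc J' * Rᵀ * J = J' * (Rᵀ * J) := Matrix.mul_assoc _ _ _
      _ = c • ((J' * J) * R') := by rw [hRc, Matrix.mul_smul]; noncomm_ring
      _ = c • R' := by rw [D.mul', Matrix.one_mul]
  have hR2 : J' * R'ᵀ * J = c⁻¹ • R := by
    have h3 : (J' * R'ᵀ * J) * (J' * Rᵀ * J) = 1 := by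
      calc (J' * R'ᵀ * J) * (J' * Rᵀ * J) = J' * R'ᵀ * (J * J') * Rᵀ * J := by noncomm_ring
        _ = J' * (R'ᵀ * Rᵀ) * J := by rw [D.mul]; noncomm_ring
        _ = 1 := by rw [← Matrix.transpose_mul, h1, Matrix.transpose_one, Matrix.mul_one, D.mul']
    have h4 : (J' * Rᵀ * J) * (c⁻¹ • R) = 1 := by
      rw [hR1, Matrix.smul_mul, Matrix.mul_smul, smul_smul, mul_inv_cancel₀ hc0, one_smul, h2]
    exact inv_uniq h3 h4
  have key : ∀ X, t V * t X * t U = U * t X * V := by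
    intro X
    refine D.inj ?_
    rw [← h.2.2, ← tmul, ← tmul, ht, ht, ← Matrix.mul_assoc, ← h.2.2, Matrix.transpose_mul, Matrix.transpose_mul]
    calc J' * (R'ᵀ * ((φ X)ᵀ * Rᵀ)) * J = J' * R'ᵀ * 1 * (φ X)ᵀ * 1 * Rᵀ * J := by noncomm_ring
      _ = J' * R'ᵀ * (J * J') * (φ X)ᵀ * (J * J') * Rᵀ * J := by rw [D.mul]
      _ = (J' * R'ᵀ * J) * (J' * (φ X)ᵀ * J) * (J' * Rᵀ * J) := by noncomm_ring
      _ = (c⁻¹ • R) * (J' * (φ X)ᵀ * J) * (c • R') := by rw [hR1, hR2]
      _ = R * (J' * (φ X)ᵀ * J) * R' := by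
        rw [Matrix.smul_mul, Matrix.smul_mul, Matrix.mul_smul, smul_smul, inv_mul_cancel₀ hc0, one_smul]
  have hVU : t U * t V = 1 := by rw [← tmul, h.2.1, tone]
  obtain ⟨m, hm⟩ := scalar_of_comm (Z := t U * U) fun X => by
    have h3 := key (t X)
    rw [tt] at h3
    calc t U * U * X = t U * (U * X * V) * U := by
          have : U * X * V * U = U * X := by rw [Matrix.mul_assoc (U * X), h.2.1, Matrix.mul_one]
          rw [Matrix.mul_assoc (t U) _ U, this, Matrix.mul_assoc]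
      _ = t U * (t V * X * t U) * U := by rw [h3]
      _ = (t U * t V) * X * (t U * U) := by noncomm_ring
      _ = X * (t U * U) := by rw [hVU, Matrix.one_mul]
  have htU : t U = m • V := by
    calc t U = t U * (U * V) := by rw [h.1, Matrix.mul_one]
      _ = (t U * U) * V := (Matrix.mul_assoc _ _ _).symm
      _ = m • V := by rw [hm, Matrix.smul_mul, Matrix.one_mul]
  have hm0 : m ≠ 0 := by
    rintro rfl
    rw [zero_smul] at htU
    rw [htU, Matrix.zero_mul] at hVU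
    exact zero_ne_one hVU
  refine ⟨m, hm0, ?_, ?_⟩
  · have h3 := congrArg φ hm
    rw [map_mul, ht, map_smul] at h3
    exact h3
  · let f : Matrix Ω Ω K →ₐ[K] Matrix Ω Ω K := AlgHom.ofLinearMap
      ⟨⟨fun X => (t X)ᵀ, fun X Y => by rw [tadd, Matrix.transpose_add]⟩,
        fun c X => by
          show (t (c • X))ᵀ = c • (t X)ᵀ
          rw [tsmul, Matrix.transpose_smul]⟩
      (by
        show (t 1)ᵀ = 1
        rw [tone, Matrix.transpose_one])
      (fun X Y => by
        show (t (X * Y))ᵀ = (t X)ᵀ * (t Y)ᵀ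
        rw [tmul, Matrix.transpose_mul])
    have h4 : (f U).trace = U.trace := Matrix.trace_map' f U
    have h5 : f U = (t U)ᵀ := rfl
    rw [← h4, h5, Matrix.trace_transpose, htU, Matrix.trace_smul, smul_eq_mul]

/-- The multiplier of a rational element is rational. -/
theorem Dat.mul_fix (D : Dat φ Γ J J') {U : Matrix Ω Ω K} (hU : Rat Γ (φ U)) {m : K} (h : Mul φ J J' U m)
    [Nonempty Ω] : ∀ s ∈ Γ, s m = m := by
  intro s hs
  obtain ⟨t, ht, -, tone, -⟩ := exists_transport D.inj D.stab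
  have h1 : (φ 1).map s = φ 1 := by rw [← ht s hs, tone s hs]
  have h2 := congrArg (fun a : Matrix ι ι K => a.map s) h
  simp only [map_mul'] at h2
  have h3 : ((φ U)ᵀ).map s = (φ U)ᵀ := by
    rw [Matrix.transpose_map, hU s hs]
  have h4 : (m • φ 1).map s = s m • φ 1 := by
    ext i j
    rw [Matrix.map_apply, Matrix.smul_apply, Matrix.smul_apply, smul_eq_mul, smul_eq_mul, map_mul]
    have := congrFun (congrFun h1 i) j
    rw [Matrix.map_apply] at this
    rw [this]
  rw [h3, h4, hU s hs, D.rat s hs, D.rat.inv D.mul D.mul' s hs] at h2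
  have h5 : (s m - m) • φ 1 = 0 := by
    rw [sub_smul, ← h2, ← h, sub_self]
  rcases smul_eq_zero.1 h5 with h6 | h6
  · exact sub_eq_zero.1 h6
  · have : (1 : Matrix Ω Ω K) = 0 := D.inj (by rw [h6, map_zero])
    exact absurd this one_ne_zero

/-- The trace of `Ad` on a rational element is rational. -/
theorem Dat.trace_fix (D : Dat φ Γ J J') {U : Matrix Ω Ω K} (hU : Rat Γ (φ U)) [CharZero K] [Nonempty Ω] :
    ∀ s ∈ Γ, s U.trace = U.trace := by
  intro s hs
  obtain ⟨i₀⟩ := ‹Nonempty Ω›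
  have h1 : ∀ X, (φ X).trace = (φ (single i₀ i₀ 1)).trace * X.trace := by
    intro X
    have hst : ∀ i j : Ω, (φ (single i j (1 : K))).trace = if i = j then (φ (single i₀ i₀ 1)).trace else 0 := by
      intro i j
      have h2 : (single i j (1 : K)) = single i i₀ 1 * single i₀ j 1 := by simp
      have h3 : single i₀ j (1 : K) * single i i₀ 1 = if i = j then single i₀ i₀ 1 else 0 := by
        by_cases h : i = j
        · subst h
          simp
        · rw [if_neg h, single_mul_single_of_ne (h := fun e => h e.symm)]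
      rw [h2, map_mul, Matrix.trace_mul_comm, ← map_mul, h3]
      split_ifs
      · rfl
      · rw [map_zero, Matrix.trace_zero]
    have h4 : X = ∑ i, ∑ j, X i j • single i j (1 : K) := by
      calc X = ∑ i, ∑ j, single i j (X i j) := Matrix.matrix_eq_sum_single X
        _ = _ := by
          refine Finset.sum_congr rfl fun i _ => Finset.sum_congr rfl fun j _ => ?_
          rw [Matrix.smul_single, smul_eq_mul, mul_one]
    calc (φ X).trace = ∑ i, ∑ j, X i j * (φ (single i j (1 : K))).trace := by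
          conv_lhs => rw [h4]
          simp only [map_sum, map_smul, Matrix.trace_sum, Matrix.trace_smul, smul_eq_mul]
      _ = ∑ i, X i i * (φ (single i₀ i₀ 1)).trace := by
          refine Finset.sum_congr rfl fun i _ => ?_
          rw [Finset.sum_eq_single i]
          · rw [hst, if_pos rfl]
          · intro j _ hj
            rw [hst, if_neg (Ne.symm hj), mul_zero]
          · simp
      _ = _ := by
          rw [← Finset.sum_mul, mul_comm]
          rfl
  have h5 : (φ (single i₀ i₀ (1 : K))).trace ≠ 0 := by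
    intro h0
    have h6 : IsIdempotentElem (Matrix.toLin' (φ (single i₀ i₀ (1 : K)))) := by
      show Matrix.toLin' _ * Matrix.toLin' _ = _
      rw [Module.End.mul_eq_comp, ← Matrix.toLin'_mul, ← map_mul]
      simp
    have h7 : Matrix.toLin' (φ (single i₀ i₀ (1 : K))) = 0 :=
      (LinearMap.IsIdempotentElem.trace_eq_zero_iff h6).1 (by rw [Matrix.trace_toLin'_eq, h0])
    have h8 : φ (single i₀ i₀ (1 : K)) = 0 := (LinearEquiv.map_eq_zero_iff _).1 h7
    have h9 : single i₀ i₀ (1 : K) = 0 := D.inj (by rw [h8, map_zero])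
    have h10 := congrFun (congrFun h9 i₀) i₀
    simp at h10
  have h11 : s (φ (single i₀ i₀ (1 : K))).trace = (φ (single i₀ i₀ (1 : K))).trace := by
    have hone : Rat Γ (φ 1) := by
      intro s hs
      obtain ⟨t, ht, -, tone, -⟩ := exists_transport D.inj D.stab
      rw [← ht s hs, tone s hs]
    have h12 := congrArg Matrix.trace (hone s hs)
    have h13 : ((φ 1).map s).trace = s (φ 1).trace := (AddMonoidHom.map_trace s.toRingHom.toAddMonoidHom (φ 1)).symm
    rw [h13, h1 1, Matrix.trace_one, map_mul, map_natCast] at h12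
    have h14 : ((Fintype.card Ω : ℕ) : K) ≠ 0 := by
      have : Fintype.card Ω ≠ 0 := Fintype.card_ne_zero
      exact_mod_cast this
    exact mul_right_cancel₀ h14 h12
  have h15 := congrArg Matrix.trace (hU s hs)
  have h16 : ((φ U).map s).trace = s (φ U).trace := (AddMonoidHom.map_trace s.toRingHom.toAddMonoidHom (φ U)).symm
  rw [h16, h1 U, map_mul, h11] at h15
  exact mul_left_cancel₀ h5 h15

variable {k : Subfield K}

/-- Uniqueness of the multiplier modulo squares. -/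
theorem Dat.mul_uniq (D : Dat φ Γ J J') (hk : ∀ x : K, (∀ s ∈ Γ, s x = x) → x ∈ k) {R R' : Matrix ι ι K}
    {U V U' V' : Matrix Ω Ω K} (h : Imp φ R R' U V) (h' : Imp φ R R' U' V') (hU : Rat Γ (φ U)) (hU' : Rat Γ (φ U'))
    {m m' : kˣ} (hm : Mul φ J J' U (m : k)) (hm' : Mul φ J J' U' (m' : k)) [Nonempty Ω] :
    (QuotientGroup.mk m : kˣ ⧸ (powMonoidHom 2 : kˣ →* kˣ).range) = QuotientGroup.mk m' := by
  obtain ⟨c, hc0, hc, -⟩ := h.uniq D.inj h'
  have hφ1 : φ 1 ≠ 0 := by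
    intro h6
    have : (1 : Matrix Ω Ω K) = 0 := D.inj (by rw [h6, map_zero])
    exact absurd this one_ne_zero
  have hU0 : φ U ≠ 0 := by
    intro h0
    have h1 : U = 0 := D.inj (by rw [h0, map_zero])
    have h2 := h.1
    rw [h1, Matrix.zero_mul] at h2
    exact zero_ne_one h2
  have hck : c ∈ k := by
    refine hk c fun s hs => ?_
    have h1 : s c • φ U = c • φ U := by
      calc s c • φ U = s c • (φ U).map s := by rw [hU s hs]
        _ = (c • φ U).map s := by
          ext i j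
          simp
        _ = (φ U').map s := by rw [hc, map_smul]
        _ = c • φ U := by rw [hU' s hs, hc, map_smul]
    have h2 : (s c - c) • φ U = 0 := by rw [sub_smul, h1, sub_self]
    exact sub_eq_zero.1 ((smul_eq_zero.1 h2).resolve_right hU0)
  have hmm : ((m' : k) : K) = c ^ 2 * ((m : k) : K) := by
    have h1 : ((m' : k) : K) • φ 1 = (c ^ 2 * ((m : k) : K)) • φ 1 := by
      unfold Mul at hm hm'
      rw [← hm', hc, map_smul, Matrix.transpose_smul]
      simp only [Matrix.mul_smul, Matrix.smul_mul]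
      rw [hm, smul_smul, smul_smul, pow_two]
    have h2 : (((m' : k) : K) - c ^ 2 * ((m : k) : K)) • φ 1 = 0 := by rw [sub_smul, h1, sub_self]
    exact sub_eq_zero.1 ((smul_eq_zero.1 h2).resolve_right hφ1)
  rw [QuotientGroup.eq]
  refine ⟨Units.mk0 (⟨c, hck⟩ : k) (fun e => hc0 (congrArg Subtype.val e)), ?_⟩
  rw [powMonoidHom_apply]
  ext
  rw [Units.val_pow_eq_pow_val, Units.val_mk0, Units.val_mul]
  push_cast
  rw [hmm]
  have hm0 : ((m : k) : K) ≠ 0 := by
    intro e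
    exact m.ne_zero (Subtype.ext e)
  field_simp

/-- The multiplier class is a character. -/
theorem Dat.exists_char (D : Dat φ Γ J J') (hk : ∀ x : K, (∀ s ∈ Γ, s x = x) → x ∈ k)
    {G : Type*} [Group G] (ρ : G →* Matrix.GeneralLinearGroup ι K) (hrat : ∀ g, Rat Γ (ρ g).1)
    (hsim : ∀ g, ∃ c : K, (ρ g).1ᵀ * J * (ρ g).1 = c • J)
    (hnorm : ∀ g X, ∃ Y, φ Y = (ρ g).1 * φ X * (ρ g)⁻¹.1) [Nonempty Ω] [Nonempty ι] :
    ∃ χ : G →* kˣ ⧸ (powMonoidHom 2 : kˣ →* kˣ).range, ∀ (g : G) (U V : Matrix Ω Ω K) (m : kˣ),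
      Imp φ (ρ g).1 (ρ g)⁻¹.1 U V → Rat Γ (φ U) → Mul φ J J' U (m : k) → χ g = QuotientGroup.mk m := by
  have h1 : ∀ g, (ρ g).1 * (ρ g)⁻¹.1 = 1 := fun g => Units.mul_inv _
  have h2 : ∀ g, (ρ g)⁻¹.1 * (ρ g).1 = 1 := fun g => Units.inv_mul _
  have ex : ∀ g, ∃ (U V : Matrix Ω Ω K) (m : kˣ), Imp φ (ρ g).1 (ρ g)⁻¹.1 U V ∧ Rat Γ (φ U) ∧
      Mul φ J J' U (m : k) := by
    intro g
    obtain ⟨U₀, V₀, h₀⟩ := exists_imp D.inj (h2 g) (hnorm g)
    obtain ⟨U, V, h, hU, hV⟩ := h₀.exists_rat D.inj D.stab (hrat g) ((hrat g).inv (h1 g) (h2 g))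
    obtain ⟨c, hc⟩ := hsim g
    obtain ⟨m, hm0, hm, -⟩ := D.exists_mul (h1 g) (h2 g) hc h
    exact ⟨U, V, Units.mk0 (⟨m, hk m (D.mul_fix hU hm)⟩ : k) (fun e => hm0 (congrArg Subtype.val e)), h, hU, hm⟩
  choose U V m hI hR hM using ex
  refine ⟨MonoidHom.mk' (fun g => QuotientGroup.mk (m g)) fun g h => ?_, fun g U' V' m' hI' hR' hM' =>
    D.mul_uniq hk (hI g) hI' (hR g) hR' (hM g) hM'⟩
  rw [← QuotientGroup.mk_mul]
  have h3 : (ρ (g * h)).1 = (ρ g).1 * (ρ h).1 := by rw [map_mul]; rfl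
  have h4 : (ρ (g * h))⁻¹.1 = (ρ h)⁻¹.1 * (ρ g)⁻¹.1 := by rw [map_mul, _root_.mul_inv_rev]; rfl
  refine D.mul_uniq hk (hI (g * h)) (U' := U g * U h) (V' := V h * V g) ?_ (hR _) ?_ (hM _) ?_
  · rw [h3, h4]
    exact (hI g).mul (hI h)
  · intro s hs
    rw [map_mul, map_mul', hR g s hs, hR h s hs]
  · unfold Mul
    rw [map_mul, Matrix.transpose_mul, Units.val_mul]
    push_cast
    have e1 := hM g
    have e2 := hM h
    unfold Mul at e1 e2
    calc J' * ((φ (U h))ᵀ * (φ (U g))ᵀ) * J * (φ (U g) * φ (U h))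
        = J' * (φ (U h))ᵀ * 1 * (φ (U g))ᵀ * J * φ (U g) * φ (U h) := by noncomm_ring
      _ = J' * (φ (U h))ᵀ * (J * J') * (φ (U g))ᵀ * J * φ (U g) * φ (U h) := by rw [D.mul]
      _ = J' * (φ (U h))ᵀ * J * (J' * (φ (U g))ᵀ * J * φ (U g)) * φ (U h) := by noncomm_ring
      _ = ((m g : k) : K) • (J' * (φ (U h))ᵀ * J * φ (1 * U h)) := by
        rw [e1, map_mul, Matrix.mul_smul, Matrix.smul_mul]
        congr 1
        noncomm_ring
      _ = (((m g : k) : K) * ((m h : k) : K)) • φ 1 := by rw [Matrix.one_mul, e2, smul_smul]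

/-- The multiplier class is the trace of `Ad`. -/
theorem Dat.char_trace (D : Dat φ Γ J J') (hk : ∀ x : K, (∀ s ∈ Γ, s x = x) → x ∈ k) [CharZero K]
    {G : Type*} [Group G] (ρ : G →* Matrix.GeneralLinearGroup ι K) (hrat : ∀ g, Rat Γ (ρ g).1)
    (hsim : ∀ g, ∃ c : K, (ρ g).1ᵀ * J * (ρ g).1 = c • J)
    (hnorm : ∀ g X, ∃ Y, φ Y = (ρ g).1 * φ X * (ρ g)⁻¹.1) [Nonempty Ω] [Nonempty ι] :
    ∃ χ : G →* kˣ ⧸ (powMonoidHom 2 : kˣ →* kˣ).range, ∀ (g : G) (T : Matrix Ω Ω K →ₗ[K] Matrix Ω Ω K),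
      (∀ X, φ (T X) = (ρ g).1 * φ X * (ρ g)⁻¹.1) → LinearMap.trace K _ T ≠ 0 →
        ∃ θ : kˣ, ((θ : k) : K) = LinearMap.trace K _ T ∧ χ g = QuotientGroup.mk θ := by
  obtain ⟨χ, hχ⟩ := D.exists_char hk ρ hrat hsim hnorm
  refine ⟨χ, fun g T hT h0 => ?_⟩
  have h1 : (ρ g).1 * (ρ g)⁻¹.1 = 1 := Units.mul_inv _
  have h2 : (ρ g)⁻¹.1 * (ρ g).1 = 1 := Units.inv_mul _
  obtain ⟨U₀, V₀, h₀⟩ := exists_imp D.inj h2 (hnorm g)
  obtain ⟨U, V, h, hU, hV⟩ := h₀.exists_rat D.inj D.stab (hrat g) ((hrat g).inv h1 h2)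
  obtain ⟨c, hc⟩ := hsim g
  obtain ⟨m, hm0, hm, htr⟩ := D.exists_mul h1 h2 hc h
  have hθ := h.trace_eq D.inj T hT
  have hmk : m ∈ k := hk m (D.mul_fix hU hm)
  have hUk : U.trace ∈ k := hk _ (D.trace_fix hU)
  have hVk : V.trace ∈ k := hk _ (D.trace_fix hV)
  have hV0 : V.trace ≠ 0 := by
    intro e
    rw [e, mul_zero] at hθ
    exact h0 hθ
  let mu : kˣ := Units.mk0 (⟨m, hmk⟩ : k) (fun e => hm0 (congrArg Subtype.val e))
  let v : kˣ := Units.mk0 (⟨V.trace, hVk⟩ : k) (fun e => hV0 (congrArg Subtype.val e))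
  refine ⟨mu * v ^ 2, ?_, ?_⟩
  · rw [hθ, htr]
    show m * V.trace ^ 2 = _
    ring
  · rw [hχ g U V mu h hU hm, QuotientGroup.eq]
    refine ⟨v, ?_⟩
    rw [powMonoidHom_apply]
    group

end star

end Pool.Agent.Lib.H86E
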